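import Pool.Agent.Lib.MP_d61fbb_ag.WP.B1
import Pool.Agent.Lib.MP_d61fbb_ag.SQ.T4

/-! The Gram matrix of the pairing. -/

set_option autoImplicit false

noncomputable section

namespace Pool.Agent.Lib.MP_d61fbb_ag.WP

open Matrix Pool.Agent.Lib.MP_d61fbb_ag.SQ

variable {l : ℕ} [Fact l.Prime] {k A ι : Type} [Field k] [AddCommGroup A] [Fintype ι]
  [DecidableEq ι] {W : ℕ → A → A → k → Prop} {e : (ι → ℚ_[l]) →+ A} {ω : ℚ_[l] →+ Additive kˣ}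
  {B : Matrix ι ι ℚ_[l]}

theorem b2_pow_ne (j : ℕ) : (l : ℚ_[l]) ^ j ≠ 0 :=
  pow_ne_zero _ (Nat.cast_ne_zero.2 (Fact.out : l.Prime).ne_zero)

theorem b2_appr {v : ℚ_[l]} (hv : ‖v‖ ≤ 1) (j : ℕ) :
    ∃ m : ℤ, ‖((l : ℚ_[l]) ^ j)⁻¹ * (v - m)‖ ≤ 1 := by
  obtain ⟨y, hy⟩ := Ideal.mem_span_singleton.1 (PadicInt.appr_spec j ⟨_, hv⟩)
  generalize PadicInt.appr ⟨_, hv⟩ j = m at hy
  have h : v - m = l ^ j * y := by simpa using congrArg (fun x : ℤ_[l] => (x : ℚ_[l])) hy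
  refine ⟨m, ?_⟩
  rw [Int.cast_natCast, h, inv_mul_cancel_left₀ (b2_pow_ne j)]
  exact y.2

theorem b2_ext (h1 : ∀ t, ω t = 0 ↔ ‖t‖ ≤ 1) {a b : ℚ_[l]}
    (h : ∀ j : ℕ, ω (((l : ℚ_[l]) ^ j)⁻¹ * a) = ω (((l : ℚ_[l]) ^ j)⁻¹ * b)) : a = b := by
  by_contra hab
  have h0 : 0 < ‖a - b‖ := norm_pos_iff.2 (sub_ne_zero.2 hab)
  have h2 : (1 : ℝ) < l := by exact_mod_cast (Fact.out : l.Prime).one_lt
  obtain ⟨j, hj⟩ := pow_unbounded_of_one_lt ‖a - b‖⁻¹ h2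
  have h3 := h j
  rw [← sub_eq_zero, ← map_sub, ← mul_sub, h1, norm_mul, norm_inv, norm_pow, Padic.norm_p, inv_pow,
    inv_inv, ← le_div_iff₀ h0, one_div] at h3
  exact h3.not_gt hj

omit [Fintype ι] in
theorem b2_single (he : ∀ v, e v = 0 ↔ ∀ i, ‖v i‖ ≤ 1) (i : ι) : e (Pi.single i 1) = 0 :=
  (he _).2 fun x => by
    rw [Pi.single_apply]
    split_ifs <;> simp

theorem exists_gram (p : Pair W) (he : ∀ v, e v = 0 ↔ ∀ i, ‖v i‖ ≤ 1)
    (h1 : ∀ t, ω t = 0 ↔ ‖t‖ ≤ 1) (h2 : ∀ (y : ℕ → k), y 0 = 1 → (∀ j, y (j + 1) ^ l = y j) →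
      ∃ b : ℚ_[l], ‖b‖ ≤ 1 ∧ ∀ j : ℕ, (Additive.toMul (ω (((l : ℚ_[l]) ^ j)⁻¹ * b))).val = y j) :
    ∃ B, Gram W e ω B := by
  have hl : l ≠ 0 := (Fact.out : l.Prime).ne_zero
  have hN : ∀ j : ℕ, l ^ j ≠ 0 := fun j => pow_ne_zero j hl
  have ht : ∀ (i : ι) (j : ℕ), l ^ j • e (Pi.single i ((l : ℚ_[l]) ^ j)⁻¹) = 0 := fun i j => by
    rw [← map_nsmul, ← Pi.single_smul, nsmul_eq_mul, Nat.cast_pow, mul_inv_cancel₀ (b2_pow_ne j),
      b2_single he]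
  have hs : ∀ (i : ι) (j : ℕ), l • e (Pi.single i ((l : ℚ_[l]) ^ (j + 1))⁻¹) =
      e (Pi.single i ((l : ℚ_[l]) ^ j)⁻¹) := fun i j => by
    rw [← map_nsmul, ← Pi.single_smul, nsmul_eq_mul, pow_succ, _root_.mul_inv_rev,
      mul_inv_cancel_left₀ (Nat.cast_ne_zero.2 hl)]
  choose y hy using fun i i' j => p.ex (hN j) (ht i j) (ht i' j)
  choose B hB hB' using fun i i' => h2 (y i i') (by
    have h3 := hy i i' 0
    simp only [pow_zero, inv_one, b2_single he] at h3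
    exact p.uniq one_ne_zero h3 (p.zero one_ne_zero (smul_zero _))) fun j => by
    have h3 := hy i i' j
    rw [← hs i j, ← hs i' j] at h3
    have h4 := p.zsmul' (hN _) (hy i i' (j + 1)) l
    rw [natCast_zsmul, zpow_natCast] at h4
    exact p.uniq (hN _) h4 (pow_succ l j ▸ p.comp (hN j) hl h3)
  refine ⟨Matrix.of B, h1, fun j v w hv hw => ?_⟩
  have key : ∀ v, e v = 0 → ∃ m : ι → ℤ, (∀ x, ‖((l : ℚ_[l]) ^ j)⁻¹ * (v x - m x)‖ ≤ 1) ∧
      e (((l : ℚ_[l]) ^ j)⁻¹ • v) = ∑ x, m x • e (Pi.single x ((l : ℚ_[l]) ^ j)⁻¹) := fun v hv => by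
    choose m hm using fun x => b2_appr ((he v).1 hv x) j
    refine ⟨m, hm, ?_⟩
    rw [← t4_int, ← sub_eq_zero, ← map_sub, he]
    intro x
    rw [Pi.sub_apply, Pi.smul_apply, smul_eq_mul, mul_comm (m x : ℚ_[l]), ← mul_sub]
    exact hm x
  obtain ⟨m, m1, m2⟩ := key v hv
  obtain ⟨n, n1, n2⟩ := key w hw
  have h3 : ω (((l : ℚ_[l]) ^ j)⁻¹ * (v ⬝ᵥ Matrix.of B *ᵥ w)) =
      ∑ x, m x • ∑ x', n x' • ω (((l : ℚ_[l]) ^ j)⁻¹ * B x x') := by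
    simp only [dotProduct, mulVec, of_apply, Finset.mul_sum, map_sum]
    refine Finset.sum_congr rfl fun x _ =>
      (Finset.sum_congr rfl fun x' _ => ?_).trans (Finset.sum_zsmul _ _ _)
    rw [← map_zsmul, ← map_zsmul, ← sub_eq_zero, ← map_sub, h1, zsmul_eq_mul, zsmul_eq_mul,
      show ((l : ℚ_[l]) ^ j)⁻¹ * (v x * (B x x' * w x')) -
        m x * (n x' * (((l : ℚ_[l]) ^ j)⁻¹ * B x x')) =
        ((l : ℚ_[l]) ^ j)⁻¹ * (v x - m x) * (B x x' * w x') +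
          m x * B x x' * (((l : ℚ_[l]) ^ j)⁻¹ * (w x' - n x')) by ring]
    refine (IsUltrametricDist.norm_add_le_max _ _).trans (max_le ?_ ?_)
    · rw [norm_mul, norm_mul (B x x')]
      exact mul_le_one₀ (m1 x) (by positivity)
        (mul_le_one₀ (hB x x') (norm_nonneg _) ((he w).1 hw x'))
    · rw [norm_mul, norm_mul (m x : ℚ_[l])]
      exact mul_le_one₀ (mul_le_one₀ (Padic.norm_int_le_one _) (norm_nonneg _) (hB x x'))
        (norm_nonneg _) (n1 x')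
  have h4 : l ^ j • ∑ x, n x • e (Pi.single x ((l : ℚ_[l]) ^ j)⁻¹) = 0 := by
    rw [Finset.smul_sum]
    exact Finset.sum_eq_zero fun x _ => by rw [smul_comm, ht, smul_zero]
  have h5 := p.sum (hN j) h4 Finset.univ fun x _ => p.zsmul (hN j)
    (p.sum' (hN j) (ht x j) Finset.univ fun x' _ => p.zsmul' (hN j) (hy x x' j) (n x')) (m x)
  rw [m2, n2, h3]
  simpa only [toMul_sum, toMul_zsmul, Units.coe_prod, Units.val_zpow_eq_zpow_val, hB'] using h5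

theorem Gram.skew (p : Pair W) (he : ∀ v, e v = 0 ↔ ∀ i, ‖v i‖ ≤ 1) (h : Gram W e ω B) :
    Bᵀ = -B := by
  ext i i'
  refine b2_ext h.1 fun j => ?_
  have h1 := p.uniq (pow_ne_zero j (Fact.out : l.Prime).ne_zero)
    (h.2 j _ _ (b2_single he i') (b2_single he i))
    (p.skew (h.2 j _ _ (b2_single he i) (b2_single he i')))
  simp only [single_one_dotProduct, mulVec_single_one, col_apply] at h1
  rw [transpose_apply, neg_apply, mul_neg, map_neg]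
  refine Additive.toMul.injective (Units.ext ?_)
  rw [h1, toMul_neg, Units.val_inv_eq_inv_val]

theorem Gram.conj (p : Pair W) (he : ∀ v, e v = 0 ↔ ∀ i, ‖v i‖ ≤ 1) (h : Gram W e ω B)
    {θ : AddMonoid.End A} {M : Matrix ι ι ℚ_[l]} (hM : Rep e θ M) (σ : k → k) {c : ℚ_[l]}
    (hσ : ∀ t, σ (Additive.toMul (ω t)).val = (Additive.toMul (ω (c * t))).val)
    (hθ : ∀ N x y ζ, W N x y ζ → W N (θ x) (θ y) (σ ζ)) : Mᵀ * B * M = c • B := by
  ext i i'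
  refine b2_ext h.1 fun j => ?_
  have h0 : ∀ i, e (M *ᵥ Pi.single i 1) = 0 := fun i => by rw [hM, b2_single he, map_zero]
  have h1 := hθ _ _ _ _ (h.2 j _ _ (b2_single he i) (b2_single he i'))
  rw [← hM, ← hM, mulVec_smul, mulVec_smul, hσ] at h1
  have h2 := p.uniq (pow_ne_zero j (Fact.out : l.Prime).ne_zero) (h.2 j _ _ (h0 i) (h0 i')) h1
  rw [mulVec_mulVec, ← vecMul_transpose, ← dotProduct_mulVec, mulVec_mulVec, ← Matrix.mul_assoc,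
    mul_left_comm] at h2
  simp only [single_one_dotProduct, mulVec_single_one, col_apply] at h2
  exact Additive.toMul.injective (Units.ext h2)

end Pool.Agent.Lib.MP_d61fbb_ag.WP
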