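import Pool.Agent.Lib.MP_d61fbb_ag.WP.V1

/-! Formal properties of the pairing. -/

set_option autoImplicit false

noncomputable section

namespace Pool.Agent.Lib.MP_d61fbb_ag.WP

open Polynomial Pool.Agent.Lib.MP_d61fbb_ag.SQ

variable {k : Type} [Field k] [IsAlgClosed k] {l : ℕ} {f : k[X]} [Sm l f]
  {ord : Crv k l f → ℕ} {lc : Crv k l f → k}

theorem v2_lc_pow (o : Ord ord lc) (u : Crv k l f) (n : ℕ) : lc (u ^ n) = lc u ^ n := by
  induction n with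
  | zero => simpa using o.lc_const 1
  | succ n ih => rw [pow_succ, o.lc_mul, ih, pow_succ]

theorem v2_ord_pow (o : Ord ord lc) {u : Crv k l f} (hu : u ≠ 0) (n : ℕ) :
    ord (u ^ n) = n * ord u := by
  induction n with
  | zero => simpa using o.ord_const 1
  | succ n ih => rw [pow_succ, o.ord_mul _ _ (pow_ne_zero n hu) hu, ih, Nat.succ_mul]

theorem v2_smul (o : Ord ord lc) {c : k} (hc : c ≠ 0) {v : Crv k l f} (hv : v ≠ 0) :
    ord (c • v) = ord v ∧ lc (c • v) = c * lc v := by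
  have h : algebraMap k (Crv k l f) c ≠ 0 := fun e =>
    hc ((o.lc_const c).symm.trans ((o.zero _).2 e))
  rw [Algebra.smul_def, o.ord_mul _ _ h hv, o.lc_mul, o.ord_const, o.lc_const, zero_add]
  exact ⟨rfl, rfl⟩

theorem v2_lead (o : Ord ord lc) {u v : Crv k l f} (hu : u ≠ 0) (hv : v ≠ 0)
    (e : ord u = ord v) :
    u = (lc u / lc v) • v ∨
      (u - (lc u / lc v) • v ≠ 0 ∧ ord (u - (lc u / lc v) • v) < ord v) := by
  have hu' := (o.zero u).not.2 hu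
  have hv' := (o.zero v).not.2 hv
  obtain ⟨h1, h2⟩ := v2_smul o (div_ne_zero hu' hv') hv
  by_cases h : u = (lc u / lc v) • v
  · exact Or.inl h
  · refine Or.inr ⟨sub_ne_zero.2 h, e ▸ (o.sub _ _ (e.trans h1.symm) ?_).resolve_left h⟩
    rw [h2, div_mul_cancel₀ _ hv']

theorem v2_ord_au (o : Ord ord lc) (a : Au l f) {u : Crv k l f} (hu : u ≠ 0) :
    ord (a.B u) = ord u := by
  have h := ord_eq o ((map_ne_zero_iff _ a.B.injective).2 hu)
  rw [← a.L_io, dv_au, deg_au, ← ord_eq o hu] at h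
  exact_mod_cast h

theorem v2_B_smul (a : Au l f) (c : k) (v : Crv k l f) : a.B (c • v) = a.σ c • a.B v := by
  rw [Algebra.smul_def, Algebra.smul_def, map_mul]
  congr 1
  exact (a.B_po (C c)).trans (congrArg _ (map_C _))

theorem v2_lc_au (o : Ord ord lc) (a : Au l f) {u v : Crv k l f} (hu : u ≠ 0) (hv : v ≠ 0)
    (e : ord u = ord v) : lc (a.B u) / lc (a.B v) = a.σ (lc u / lc v) := by
  have hv1 : a.B v ≠ 0 := (map_ne_zero_iff _ a.B.injective).2 hv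
  have hc : a.σ (lc u / lc v) ≠ 0 := (map_ne_zero_iff _ a.σ.injective).2
    (div_ne_zero ((o.zero u).not.2 hu) ((o.zero v).not.2 hv))
  obtain ⟨h1, h2⟩ := v2_smul o hc hv1
  rw [div_eq_iff ((o.zero _).not.2 hv1), ← h2, ← v2_B_smul]
  rcases v2_lead o hu hv e with h | ⟨h, h'⟩
  · rw [← h]
  · have e2 : a.B u = a.B ((lc u / lc v) • v) + a.B (u - (lc u / lc v) • v) := by
      rw [← map_add, add_sub_cancel]
    rw [e2]
    refine (o.add _ _ ?_).2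
    rwa [v2_ord_au o a h, v2_B_smul, h1, v2_ord_au o a hv]

theorem v2_ord (o : Ord ord lc) {N : ℕ} {D E : Dv l f} {g h : Crv k l f} (w : WD N D E g h)
    {a b : ℕ} (ha : (a : ℤ) = deg D) (hb : (b : ℤ) = deg E) : ord (h ^ a) = ord (g ^ b) := by
  have h1 := ord_eq o w.g0
  have h2 := ord_eq o w.h0
  rw [w.dg, map_nsmul, ← ha, nsmul_eq_mul] at h1
  rw [w.dh, map_nsmul, ← hb, nsmul_eq_mul] at h2
  rw [v2_ord_pow o w.h0, v2_ord_pow o w.g0]
  zify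
  rw [h1, h2]
  ring

theorem v2_cw {N : ℕ} {D : Dv l f} {g : Crv k l f} (hg : g ≠ 0) (h : dv (io l f g) = N • D) :
    N • cw D = 0 := by
  rw [← map_nsmul, cw_eq_zero]
  exact ⟨_, (map_ne_zero_iff _ io_inj).2 hg, h.symm⟩

theorem v2_fn {N : ℕ} {D : Dv l f} (hD : 0 ≤ D) (h : N • cw D = 0) :
    ∃ g : Crv k l f, g ≠ 0 ∧ dv (io l f g) = N • D :=
  exists_fn (nsmul_nonneg hD N) (by rwa [map_nsmul])

theorem v2_ev {N : ℕ} {D E : Dv l f} {g h : Crv k l f} (w : WD N D E g h) : evD D h ≠ 0 :=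
  evD_ne w.h0 fun P => (w.disj P).imp_right fun e => by
    rw [w.dh, Finsupp.smul_apply, e, smul_zero]

theorem v2_move (D : Dv l f) (y : Jac k l f) :
    ∃ E : Dv l f, 0 ≤ E ∧ cw E = y ∧ ∀ P, D P = 0 ∨ E P = 0 := by
  obtain ⟨E, h1, h2, h3⟩ := move_eff D.support.finite_toSet y
  exact ⟨E, h1, h2, fun P => (em (D P = 0)).imp_right fun e =>
    h3 P (Finsupp.mem_support_iff.2 e)⟩

theorem pair_wv (o : Ord ord lc) : Pair (WV lc) := by
  refine ⟨?_, ?_, ?_, ?_, ?_, ?_, ?_⟩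
  · rintro N x y ζ ζ' hN ⟨D, E, g, h, rfl, rfl, w, rfl⟩ ⟨D', E', g', h', e, e', w', rfl⟩
    exact val_uniq o hN w w' e.symm e'.symm
  · intro N x y _ hx hy
    obtain ⟨D, d0, rfl, -⟩ := v2_move 0 x
    obtain ⟨E, e0, rfl, hd⟩ := v2_move D y
    obtain ⟨g, g0, hg⟩ := v2_fn d0 hx
    obtain ⟨h, h0, hh⟩ := v2_fn e0 hy
    exact ⟨_, D, E, g, h, rfl, rfl, ⟨d0, e0, hd, g0, h0, hg, hh⟩, rfl⟩
  · rintro N x y ζ ⟨D, E, g, h, rfl, rfl, w, rfl⟩
    exact val_ne o w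
  · rintro N x y ζ ⟨D, E, g, h, rfl, rfl, w, rfl⟩
    exact ⟨v2_cw w.g0 w.dg, v2_cw w.h0 w.dh⟩
  · rintro N x x' y ζ ζ' hN ⟨D, E, g, h, rfl, rfl, w, rfl⟩ ⟨D', E', g', h', rfl, e', w', rfl⟩
    obtain ⟨F, f0, eF, hd⟩ := v2_move (D + D') (cw E)
    obtain ⟨u, u0, hu⟩ := v2_fn (N := N) f0 (eF ▸ v2_cw w.h0 w.dh)
    have hs : ∀ P, (D P = 0 ∨ F P = 0) ∧ (D' P = 0 ∨ F P = 0) := fun P => by
      have h1 : 0 ≤ D P := w.d0 P
      have h2 : 0 ≤ D' P := w'.d0 P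
      have h3 := hd P
      rw [Finsupp.add_apply] at h3
      omega
    have w1 : WD N D F g u := ⟨w.d0, f0, fun P => (hs P).1, w.g0, u0, w.dg, hu⟩
    have w2 : WD N D' F g' u := ⟨w'.d0, f0, fun P => (hs P).2, w'.g0, u0, w'.dg, hu⟩
    refine ⟨D + D', F, g * g', u, map_add _ _ _, eF, ⟨add_nonneg w.d0 w'.d0, f0, hd,
      mul_ne_zero w.g0 w'.g0, u0, ?_, hu⟩, ?_⟩
    · rw [map_mul, dv_mul ((map_ne_zero_iff _ io_inj).2 w.g0)
        ((map_ne_zero_iff _ io_inj).2 w'.g0), w.dg, w'.dg, smul_add]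
    · rw [val_right o hN w w1 eF.symm, val_right o hN w' w2 (e'.trans eF.symm), val, val, val,
        map_add, evD_mul, evD_add w.d0 w'.d0, o.lc_mul, mul_add, add_mul,
        zpow_add₀ (neg_ne_zero.2 one_ne_zero), zpow_add₀ ((o.zero u).not.2 u0), mul_zpow]
      ring
  · rintro N x y ζ ⟨D, E, g, h, rfl, rfl, w, rfl⟩
    exact ⟨E, D, h, g, rfl, rfl, w.symm, (val_symm w).symm⟩
  · rintro N M x y ζ hN hM ⟨D, E, g, h, e, rfl, w, rfl⟩
    obtain ⟨F, f0, rfl, hd⟩ := v2_move E x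
    obtain ⟨u, u0, hu⟩ := v2_fn (N := N * M) f0 (by rw [mul_smul, ← e, v2_cw w.g0 w.dg])
    have w1 : WD N (M • F) E u h := ⟨nsmul_nonneg f0 M, w.e0, fun P => (hd P).symm.imp_left
      fun e => by rw [Finsupp.smul_apply, e, smul_zero], u0, w.h0, by rw [hu, mul_smul], w.dh⟩
    refine ⟨F, E, u, h ^ M, rfl, rfl, ⟨f0, w.e0, fun P => (hd P).symm, u0, pow_ne_zero M w.h0, hu,
      by rw [map_pow, dv_pow, w.dh, smul_smul, mul_comm]⟩, ?_⟩
    rw [val_uniq o hN w w1 (e.trans (map_nsmul _ _ _).symm) rfl, val, val, v2_lc_pow o, evD_pow,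
      evD_nsmul f0, map_nsmul, nsmul_eq_mul, ← zpow_natCast (lc h), ← zpow_mul, Nat.cast_mul,
      mul_assoc (N : ℤ) M]

theorem wv_au (o : Ord ord lc) (a : Au l f) {N : ℕ} {x y : Jac k l f} {ζ : k}
    (h : WV lc N x y ζ) : WV lc N (a.J x) (a.J y) (a.σ ζ) := by
  obtain ⟨D, E, g, h, rfl, rfl, w, rfl⟩ := h
  have h0 : ∀ {D : Dv l f}, 0 ≤ D → 0 ≤ a.D D := fun {D} hD Q => by
    obtain ⟨Q, rfl⟩ := a.P.surjective Q
    exact (hD Q).trans_eq (a.D_apply D Q).symm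
  have h1 : ∀ {D : Dv l f} {g : Crv k l f}, dv (io l f g) = N • D →
      dv (io l f (a.B g)) = N • a.D D := fun e => by rw [← a.L_io, dv_au, e, map_nsmul]
  refine ⟨a.D D, a.D E, a.B g, a.B h, cw_au a D, cw_au a E, ⟨h0 w.d0, h0 w.e0, fun Q => ?_,
    (map_ne_zero_iff _ a.B.injective).2 w.g0, (map_ne_zero_iff _ a.B.injective).2 w.h0,
    h1 w.dg, h1 w.dh⟩, ?_⟩
  · obtain ⟨Q, rfl⟩ := a.P.surjective Q
    rw [a.D_apply, a.D_apply]
    exact w.disj Q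
  · obtain ⟨m, hm⟩ := Int.eq_ofNat_of_zero_le (deg_nonneg w.d0)
    obtain ⟨n, hn⟩ := Int.eq_ofNat_of_zero_le (deg_nonneg w.e0)
    have e := v2_lc_au o a (pow_ne_zero m w.h0) (pow_ne_zero n w.g0) (v2_ord o w hm.symm hn.symm)
    simp only [map_pow a.B, v2_lc_pow o] at e
    rw [val, val, deg_au, deg_au, evD_au, evD_au, map_mul, map_mul, map_zpow₀, map_neg, map_one,
      hm, hn, zpow_natCast, zpow_natCast, zpow_natCast, zpow_natCast, e,
      map_div₀ a.σ (evD E g)]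

theorem wv_weil (o : Ord ord lc) {N : ℕ} {x y : Jac k l f} {ζ : k} (h : WV lc N x y ζ) :
    Weil N x y ζ := by
  obtain ⟨D, E, g, h, rfl, rfl, w, rfl⟩ := h
  have hm := dg_idl w.d0
  have hn := dg_idl w.e0
  have hu := pow_ne_zero (dg k (idl D)) w.h0
  have hv := pow_ne_zero (dg k (idl E)) w.g0
  refine ⟨idl D, idl E, g, h, lc (h ^ dg k (idl D)) / lc (g ^ dg k (idl E)), cls_idl w.d0,
    cls_idl w.e0, idl_sup w.disj, by rw [← idl_nsmul w.d0, ← w.dg, idl_dv w.g0],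
    by rw [← idl_nsmul w.e0, ← w.dh, idl_dv w.h0],
    (v2_lead o hu hv (v2_ord o w hm hn)).imp_right fun e => ?_, ?_⟩
  · rw [o.dg_eq e.1, o.dg_eq hv]
    exact e.2
  · rw [val, nm_idl w.d0, nm_idl w.e0, ← hm, ← hn, v2_lc_pow o, v2_lc_pow o, zpow_natCast,
      zpow_natCast, ← Nat.cast_mul, ← Nat.cast_mul, zpow_natCast, mul_assoc,
      div_mul_cancel₀ _ (v2_ev w)]

end Pool.Agent.Lib.MP_d61fbb_ag.WP
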