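import Pool.Agent.Lib.MP_d61fbb_ag.WP.V1

/-! The pairing with the ramification points. -/

set_option autoImplicit false

noncomputable section

namespace Pool.Agent.Lib.MP_d61fbb_ag.WP

open Polynomial Pool.Agent.Lib.MP_d61fbb_ag.SQ

variable {k : Type} [Field k] [IsAlgClosed k] {l d : ℕ} {f : k[X]} [Sm l f]
  {ord : Crv k l f → ℕ} {lc : Crv k l f → k} {r : Fin (d + 1) → k} {z : k}

theorem v3_tel {M : Type} [AddCommGroup M] (T : AddMonoid.End M) (x : M) (n : ℕ) :
    (∑ j ∈ Finset.range n, j • (T ^ j) x) - T (∑ j ∈ Finset.range n, j • (T ^ j) x) +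
      n • (T ^ n) x = ∑ j ∈ Finset.range n, (T ^ (j + 1)) x := by
  induction n with
  | zero => simp
  | succ n ih =>
    have e : (T ^ (n + 1)) x = T ((T ^ n) x) := by rw [pow_succ']; rfl
    rw [Finset.sum_range_succ, Finset.sum_range_succ, ← ih, map_add, map_nsmul, e, succ_nsmul]
    abel

theorem v3_app {M : Type} [AddCommGroup M] (T : AddMonoid.End M) (x : M) (n : ℕ) :
    (∑ j ∈ Finset.range n, j • T ^ j) x = ∑ j ∈ Finset.range n, j • (T ^ j) x :=
  map_sum (AddMonoidHom.eval x) _ _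

theorem v3_cw (a : Au l f) (n : ℕ) (D : Dv l f) : cw ((a.D ^ n) D) = (a.J ^ n) (cw D) := by
  induction n with
  | zero => rfl
  | succ n ih =>
    rw [pow_succ', pow_succ']
    exact (cw_au a _).trans (congrArg _ ih)

omit [IsAlgClosed k] in
theorem v3_pow (hz : IsPrimitiveRoot z l) (D : Dv l f) : ((rt f hz).D ^ l) D = D := by
  induction D using Finsupp.induction_linear with
  | zero => simp
  | add a b ha hb => rw [map_add, ha, hb]
  | single P n => rw [rt_D_pow, rt_P_order]; rfl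

omit [IsAlgClosed k] in
theorem v3_fix (hz : IsPrimitiveRoot z l) {P : Pt l f} (hP : P.y = 0) (D : Dv l f) (n : ℕ) :
    ((rt f hz).D ^ n) D P = D P := by
  induction n with
  | zero => rfl
  | succ n ih =>
    have e : ((rt f hz).D ^ (n + 1)) D = (rt f hz).D (((rt f hz).D ^ n) D) := by
      rw [pow_succ']; rfl
    have e2 := (rt f hz).D_apply (((rt f hz).D ^ n) D) P
    rw [(rt_P_fix hz P).2 hP] at e2
    rw [e, e2, ih]

omit [IsAlgClosed k] in
theorem v3_theta (hz : IsPrimitiveRoot z l) (D : Dv l f) :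
    (∑ j ∈ Finset.range l, j • ((rt f hz).D ^ j) D) -
      (rt f hz).D (∑ j ∈ Finset.range l, j • ((rt f hz).D ^ j) D) = nmD hz D - l • D := by
  have h := v3_tel (rt f hz).D D l
  rw [v3_pow, c4_sum (fun j => ((rt f hz).D ^ j) D) l (v3_pow hz D), ← c4_nmD] at h
  exact eq_sub_of_add_eq h

theorem v3_neg (a : k) : dv (pl l f (C a - X)) = dv (pl l f (X - C a)) := by
  have e : (C a - X : k[X]) = C (-1) * (X - C a) := by simp
  have h1 : pl l f (X - C a) ≠ 0 := (map_ne_zero_iff _ pl_inj).2 (X_sub_C_ne_zero a)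
  rw [e, map_mul, dv_mul (c8_plC_ne (by simp)) h1, dv_const, zero_add]

theorem v3_norm (hz : IsPrimitiveRoot z l) {D : Dv l f} (hD : 0 ≤ D) :
    ∃ G : k[X], G ≠ 0 ∧ dv (pl l f G) = nmD hz D ∧
      ∀ a, evD D (po l f (X - C a)) = (-1) ^ deg D * G.eval a := by
  have hn : ∀ Q, ((D Q).toNat : ℤ) = D Q := fun Q => Int.toNat_of_nonneg (hD Q)
  refine ⟨∏ Q ∈ D.support, (X - C Q.x) ^ (D Q).toNat, ?_, ?_, fun a => ?_⟩
  · exact Finset.prod_ne_zero_iff.2 fun Q _ => pow_ne_zero _ (X_sub_C_ne_zero _)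
  · rw [map_prod, dv_prod _ _ fun Q _ =>
      (map_ne_zero_iff _ pl_inj).2 (pow_ne_zero _ (X_sub_C_ne_zero _))]
    conv_rhs => rw [← Finsupp.sum_single D, Finsupp.sum, map_sum]
    refine Finset.sum_congr rfl fun Q _ => ?_
    rw [map_pow, dv_pow, ← nmD_single hz, ← map_nsmul, Finsupp.smul_single, nsmul_eq_mul, mul_one,
      hn]
  · have e : (X - C a : k[X]) = C (-1) * (C a - X) := by simp
    have e1 : po l f (C (-1)) = algebraMap k (Crv k l f) (-1) := rfl
    rw [e, map_mul, evD_mul, e1, evD_const D (by simp), eval_prod, evD, Finsupp.prod]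
    congr 1
    refine Finset.prod_congr rfl fun Q _ => ?_
    rw [Pt.ev_po, eval_pow, ← zpow_natCast, hn]
    simp

theorem v3_ram (hz : IsPrimitiveRoot z l) {P : Pt l f} (hP : P.y = 0) :
    dv (pl l f (X - C P.x)) = l • Finsupp.single P 1 := by
  have e : ∀ n : ℕ, ((rt f hz).P ^ n) P = P := fun n => by
    induction n with
    | zero => rfl
    | succ n ih => rw [pow_succ', Equiv.Perm.mul_apply, ih, (rt_P_fix hz P).2 hP]
  rw [← nmD_single hz, c4_nmD]
  simp only [rt_D_pow, e, Finset.sum_const, Finset.card_range]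

/-- Evaluation of the relation at a ramification point. -/
theorem v3_eval (hz : IsPrimitiveRoot z l) {P : Pt l f} (hP : P.y = 0) {u : Fn l f} (hu : u ≠ 0)
    {a : ℤ} (ha : dv u P = -a) {G : k[X]} {g : Crv k l f} {c : k}
    (e : pl l f G * (rt f hz).L u = pl l f (C c) * (io l f g * u)) :
    G.eval P.x = c * P.ev g * z ^ a := by
  have hy : yl l f ^ a ≠ 0 := zpow_ne_zero _ yl_ne
  obtain ⟨v, v', hv, hv', e1⟩ := dv_frac (b := u * yl l f ^ a) (mul_ne_zero hu hy) (P := P) (by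
    rw [dv_mul hu hy, dv_zpow, Finsupp.add_apply, Finsupp.smul_apply, dv_y, if_pos hP, ha]
    simp)
  have e2 := congrArg (rt f hz).L e1
  have e3 : pl l f (C z) ^ a = pl l f (C (z ^ a)) := (map_zpow₀ ((pl l f).comp C) z a).symm
  rw [map_mul, map_mul, map_zpow₀, Au.L_yl, Au.L_io, Au.L_io, rt_w, mul_zpow, e3] at e2
  have e4 : po l f G * (rt f hz).B v * v' =
      po l f (C c) * g * po l f (C (z ^ a)) * v * (rt f hz).B v' := by
    apply io_inj
    simp only [map_mul, ← pl_def]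
    rw [← e2, ← e1]
    linear_combination (pl l f (C (z ^ a)) * yl l f ^ a * io l f ((rt f hz).B v') * io l f v') * e
  have e5 : ∀ b, P.ev ((rt f hz).B b) = P.ev b := fun b => by
    have e6 := (rt f hz).ev_B P b
    rwa [(rt_P_fix hz P).2 hP, rt_σ] at e6
  have e7 := congrArg P.ev e4
  simp only [map_mul, e5, Pt.ev_po, eval_C] at e7
  apply mul_right_cancel₀ (mul_ne_zero hv hv')
  linear_combination e7

omit [IsAlgClosed k] [Sm l f] in
theorem v3_deg (P : Pt l f) (n : ℤ) : deg (Finsupp.single P n) = n := by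
  simp [deg]

theorem v3_lc (o : Ord ord lc) (hz : IsPrimitiveRoot z l) {P : Pt l f} (hP : P.y = 0) (a : k) :
    lc (po l f (X - C a)) = lc (po l f (X - C P.x)) := by
  have h1 := ord_eq o (c3_x (l := l) (f := f) P.x)
  rw [← pl_def, v3_ram hz hP, map_nsmul, v3_deg, nsmul_eq_mul, mul_one, Nat.cast_inj] at h1
  have e : po l f (X - C a) = po l f (X - C P.x) + algebraMap k (Crv k l f) (P.x - a) := by
    have e1 : algebraMap k (Crv k l f) (P.x - a) = po l f (C (P.x - a)) := rfl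
    rw [e1, ← map_add, C_sub]
    congr 1
    ring
  rw [e]
  exact (o.add _ _ (by rw [o.ord_const, h1]; exact Sm.pos f)).2

theorem wv_nondeg (o : Ord ord lc) (H : Hyp l d f r) (hz : IsPrimitiveRoot z l) {x : Jac k l f}
    (hx : l • x = 0) (h : (∑ j ∈ Finset.range l, j • zt f hz ^ j) x ≠ 0) :
    ∃ y ζ, WV lc l x y ζ ∧ ζ ≠ 1 := by
  classical
  by_contra hc
  have hW : ∀ y ζ, WV lc l x y ζ → ζ = 1 := fun y ζ w => by
    by_contra h1
    exact hc ⟨y, ζ, w, h1⟩
  obtain ⟨D, hD, hDx, hS⟩ := move_eff (Set.finite_range H.pt) x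
  have hS' : ∀ i, D (H.pt i) = 0 := fun i => hS _ ⟨i, rfl⟩
  obtain ⟨g, hg, hdg⟩ := exists_fn (D := l • D) (nsmul_nonneg hD l) (by rw [map_nsmul, hDx, hx])
  obtain ⟨G, hG, hdG, hev⟩ := v3_norm hz hD
  obtain ⟨Θ, hΘ⟩ : ∃ Θ, Θ = ∑ j ∈ Finset.range l, j • ((rt f hz).D ^ j) D := ⟨_, rfl⟩
  have h1 : Θ - (rt f hz).D Θ = dv (pl l f G) - dv (io l f g) := by
    rw [hΘ, v3_theta, hdG, hdg]
  have h2 : cw Θ ≠ 0 := by
    rw [hΘ, map_sum]
    simp only [map_nsmul, v3_cw, hDx]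
    rwa [v3_app, zt_eq] at h
  have h3 : zt f hz (cl Θ) = cl Θ := by
    have e := congrArg cl h1
    rw [map_sub, map_sub, cl_dv, cl_dv, sub_zero, cl_au, sub_eq_zero] at e
    exact e.symm
  obtain ⟨a, ha⟩ := (j_ker H hz _).1 h3
  refine h2 (cw_eq_zero.2 (cl_eq_zero.1 (ha.trans ((j_rel H hz a).2 ?_))))
  rw [← c8_cl_sum, ← sub_eq_zero, ← map_sub] at ha
  obtain ⟨u, hu, hdu⟩ := cl_eq_zero.1 ha
  have hLu : (rt f hz).L u ≠ 0 := (map_ne_zero_iff _ (rt f hz).L.injective).2 hu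
  have hpG : pl l f G ≠ 0 := (map_ne_zero_iff _ pl_inj).2 hG
  have hig : io l f g ≠ 0 := (map_ne_zero_iff _ io_inj).2 hg
  obtain ⟨c, hcc⟩ := unit_const (div_ne_zero (mul_ne_zero hpG hLu) (mul_ne_zero hig hu)) (by
    rw [dv_div (mul_ne_zero hpG hLu) (mul_ne_zero hig hu), dv_mul hpG hLu, dv_mul hig hu, dv_au,
      ← hdu, map_sub, c8_D_sum H hz, eq_add_of_sub_eq h1.symm]
    abel)
  have hc0 : c ≠ 0 := fun e0 => by
    rw [e0, C_0, map_zero] at hcc
    exact div_ne_zero (mul_ne_zero hpG hLu) (mul_ne_zero hig hu) hcc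
  rw [div_eq_iff (mul_ne_zero hig hu)] at hcc
  have hz0 : z ≠ 0 := hz.ne_zero (Sm.ne0 f)
  have key : ∀ j, (-1) ^ (l * deg D) * (lc (po l f (X - C 0)) ^ deg D / lc g) =
      (-1) ^ deg D * c * z ^ a j := fun j => by
    have hy : (H.pt j).y = 0 := rfl
    have hu1 : dv u (H.pt j) = -a j := by
      rw [← hdu, Finsupp.sub_apply, c8_sum_pt, hΘ, Finsupp.finsetSum_apply]
      simp only [Finsupp.smul_apply, v3_fix hz hy, hS', smul_zero, Finset.sum_const_zero, zero_sub]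
    have e1 := v3_eval hz hy hu hu1 hcc
    have hgj : (H.pt j).ev g ≠ 0 := (dv_eq_zero_iff hg _).1 (by
      rw [hdg, Finsupp.smul_apply, hS', smul_zero])
    have w : WD l D (Finsupp.single (H.pt j) 1) g (po l f (X - C (H.pt j).x)) :=
      ⟨hD, Finsupp.single_nonneg.2 zero_le_one, fun P => by
        by_cases hP : H.pt j = P
        · exact Or.inl (hP ▸ hS' j)
        · exact Or.inr (Finsupp.single_eq_of_ne' hP), hg, c3_x _, hdg, v3_ram hz hy⟩
    have e2 := hW _ _ ⟨D, _, g, _, hDx, rfl, w, rfl⟩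
    have e3 : evD (Finsupp.single (H.pt j) 1) g = (H.pt j).ev g := by
      rw [evD, Finsupp.prod_single_index (zpow_zero _), zpow_one]
    rw [val, v3_deg, mul_one, zpow_one, hev, e1, e3, ← v3_lc o hz hy 0, mul_div_assoc',
      div_eq_one_iff_eq (mul_ne_zero (zpow_ne_zero _ (by simp))
        (mul_ne_zero (mul_ne_zero hc0 hgj) (zpow_ne_zero _ hz0)))] at e2
    apply mul_right_cancel₀ hgj
    linear_combination e2
  intro i j
  have e := (key i).symm.trans (key j)
  rw [← hz.zpow_eq_one_iff_dvd, zpow_sub₀ hz0, div_eq_one_iff_eq (zpow_ne_zero _ hz0)]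
  exact mul_left_cancel₀ (mul_ne_zero (zpow_ne_zero _ (by simp)) hc0) e

end Pool.Agent.Lib.MP_d61fbb_ag.WP
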