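import Pool.Agent.Lib.MP_d61fbb_ag.WP.B2

/-! The Gram matrix is invertible. -/

set_option autoImplicit false

noncomputable section

namespace Pool.Agent.Lib.MP_d61fbb_ag.WP

open Matrix Pool.Agent.Lib.MP_d61fbb_ag.SQ

variable {l : ℕ} [Fact l.Prime] {k A ι : Type} [Field k] [AddCommGroup A] [Fintype ι]
  [DecidableEq ι] {W : ℕ → A → A → k → Prop} {e : (ι → ℚ_[l]) →+ A} {ω : ℚ_[l] →+ Additive kˣ}
  {Z B : Matrix ι ι ℚ_[l]} {δ : AddMonoid.End A} {a q : ℕ}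

theorem b3_poly (l a : ℕ) [Fact l.Prime] : ∃ r : Polynomial ℤ, ∀ (R : Type) [Ring R] (x : R),
    x ^ l ^ a = 1 → (1 - x) ^ l ^ a = l • Polynomial.aeval x r := by
  obtain ⟨r, hr⟩ := exists_add_pow_prime_pow_eq (Fact.out : l.Prime)
    (1 - Polynomial.X : Polynomial ℤ) Polynomial.X a
  refine ⟨-((1 - Polynomial.X) * Polynomial.X * r), fun R _ x hx => ?_⟩
  have h := congrArg (Polynomial.aeval x) hr
  rw [sub_add_cancel, one_pow, map_one, map_add, map_add, map_pow, map_pow, map_sub, map_one,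
    Polynomial.aeval_X, hx, add_right_comm, right_eq_add, add_eq_zero_iff_eq_neg, mul_assoc,
    mul_assoc, ← nsmul_eq_mul, map_nsmul, ← mul_assoc] at h
  rw [h, map_neg, smul_neg]

theorem b3_theta {R : Type} [Ring R] (x : R) (n : ℕ) : (1 - x) * ∑ j ∈ Finset.range n, j • x ^ j =
    ∑ j ∈ Finset.range n, x ^ j - 1 - n • x ^ n + x ^ n := by
  induction n with
  | zero => simp
  | succ n ih =>
    rw [Finset.sum_range_succ, Finset.sum_range_succ, mul_add, ih, mul_smul_comm, sub_mul, one_mul,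
      ← pow_succ', smul_sub, succ_nsmul]
    abel

theorem b3_zero (he : ∀ v, e v = 0 ↔ ∀ i, ‖v i‖ ≤ 1) {N : Matrix ι ι ℚ_[l]} (h : Rep e 0 N) :
    N = 0 := by
  ext i j
  by_contra hn
  have hn' : N i j ≠ 0 := hn
  have h1 := (he _).1 (h (Pi.single j ((N i j)⁻¹ * ((l : ℚ_[l]) ^ 1)⁻¹))) i
  rw [t2_col, mul_inv_cancel_left₀ hn', t2_norm, pow_one] at h1
  exact absurd (Fact.out : l.Prime).one_lt (not_lt.2 (by exact_mod_cast h1))

theorem exists_prim (hq : q = l ^ a) (he : ∀ v, e v = 0 ↔ ∀ i, ‖v i‖ ≤ 1) (hZ : Rep e δ Z)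
    (h1 : Z ^ q = 1) (h2 : (1 - Z).det ≠ 0) (hB : Zᵀ * B * Z = B) (h0 : B.det = 0) :
    ∃ v, e v = 0 ∧ B *ᵥ v = 0 ∧ ∀ t, e t = 0 → v ≠ (1 - Z) *ᵥ t := by
  have hl : l.Prime := Fact.out
  have q0 : q ≠ 0 := hq ▸ pow_ne_zero _ hl.ne_zero
  have hZ0 : Zᵀ.det ≠ 0 := fun k => by
    have := congrArg det h1
    rw [det_pow, ← det_transpose, k, zero_pow q0, det_one] at this
    exact zero_ne_one this
  have k1 : ∀ (n : ℕ) (v : ι → ℚ_[l]), B *ᵥ v = 0 → B *ᵥ (Z ^ n *ᵥ v) = 0 := fun n v hv => by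
    induction n with
    | zero => rwa [pow_zero, one_mulVec]
    | succ n ih =>
      refine eq_zero_of_mulVec_eq_zero hZ0 ?_
      rw [pow_succ', ← mulVec_mulVec, mulVec_mulVec, mulVec_mulVec, hB, ih]
  have k2 : ∑ j ∈ Finset.range q, Z ^ j = 0 := by
    have := mul_neg_geom_sum Z q
    rw [h1, sub_self] at this
    exact (((isUnit_iff_isUnit_det _).2 h2.isUnit).mul_right_eq_zero).1 this
  have k3 : ∀ t, B *ᵥ ((1 - Z) *ᵥ t) = 0 → B *ᵥ t = 0 := fun t ht => by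
    have h3 : ∀ n : ℕ, B *ᵥ (Z ^ n *ᵥ t) = B *ᵥ t := fun n => by
      induction n with
      | zero => rw [pow_zero, one_mulVec]
      | succ n ih =>
        have := k1 n _ ht
        rw [mulVec_mulVec t, mul_sub, mul_one, ← pow_succ, sub_mulVec, mulVec_sub, ih] at this
        exact (sub_eq_zero.1 this).symm
    have h4 := congrArg (fun M => B *ᵥ (M *ᵥ t)) k2
    simp only [sum_mulVec, mulVec_sum, h3, Finset.sum_const, Finset.card_range, zero_mulVec,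
      mulVec_zero] at h4
    rw [← Nat.cast_smul_eq_nsmul ℚ_[l], smul_eq_zero] at h4
    exact h4.resolve_left (Nat.cast_ne_zero.2 q0)
  by_contra hc
  push Not at hc
  have k4 : ∀ (n : ℕ) (v : ι → ℚ_[l]), e v = 0 → B *ᵥ v = 0 →
      ∃ t, e t = 0 ∧ B *ᵥ t = 0 ∧ v = (1 - Z) ^ n *ᵥ t := fun n v h3 h4 => by
    induction n with
    | zero => exact ⟨v, h3, h4, by rw [pow_zero, one_mulVec]⟩
    | succ n ih =>
      obtain ⟨t, a1, a2, a3⟩ := ih
      obtain ⟨u, b1, b2⟩ := hc t a1 a2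
      exact ⟨u, b1, k3 u (b2 ▸ a2), by rw [a3, b2, mulVec_mulVec, pow_succ]⟩
  obtain ⟨v, v0, hv⟩ := exists_mulVec_eq_zero_iff.2 h0
  obtain ⟨j, hj⟩ := Function.ne_iff.1 v0
  obtain ⟨i, -, hi⟩ := Finset.exists_max_image Finset.univ (fun i => ‖v i‖) ⟨j, Finset.mem_univ j⟩
  have h3 : 0 < ‖v i‖ := (norm_pos_iff.2 hj).trans_le (hi j (Finset.mem_univ j))
  obtain ⟨t, a1, -, a3⟩ := k4 q ((v i)⁻¹ • v) ((he _).2 fun m => by
    rw [Pi.smul_apply, norm_smul, norm_inv, inv_mul_le_iff₀ h3, mul_one]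
    exact hi m (Finset.mem_univ m)) (by rw [mulVec_smul, hv, smul_zero])
  obtain ⟨r, hr⟩ := b3_poly l a
  have h4 := (he _).1 ((hZ.aeval r t).trans (by rw [a1, map_zero])) i
  have h5 := congrArg (fun w => ‖w i‖) a3
  rw [hq, hr _ Z (hq ▸ h1), smul_mulVec] at h5
  simp only [Pi.smul_apply, smul_eq_mul, inv_mul_cancel₀ (norm_pos_iff.1 h3), norm_one,
    nsmul_eq_mul, norm_mul] at h5
  exact h5.not_gt ((mul_le_of_le_one_right (norm_nonneg _) h4).trans_lt Padic.norm_p_lt_one)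

theorem Gram.det_ne (p : Pair W) (hq : q = l ^ (a + 1)) (he : TateOn e (1 - δ ^ (q / l)))
    (hZ : Rep e δ Z) (h : Gram W e ω B) (hn : ∑ j ∈ Finset.range q, δ ^ j = 0)
    (hs : ∀ x, ∃ y, y - δ y = x) (hδ : ∀ N x y ζ, W N x y ζ → W N (δ x) (δ y) ζ)
    (nd : ∀ x, q • x = 0 → (∑ j ∈ Finset.range q, j • δ ^ j) x ≠ 0 → ∃ y ζ, W q x y ζ ∧ ζ ≠ 1) :
    B.det ≠ 0 := by
  intro h0
  have hl : l.Prime := Fact.out
  have q0 : q ≠ 0 := hq ▸ pow_ne_zero _ hl.ne_zero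
  have hN : q * l = l ^ (a + 2) := by rw [hq, ← pow_succ]
  have N0 : q * l ≠ 0 := mul_ne_zero q0 hl.ne_zero
  have d1 : δ ^ q = 1 := by
    have := mul_neg_geom_sum δ q
    rw [hn, mul_zero] at this
    exact (sub_eq_zero.1 this.symm).symm
  have z1 : Z ^ q = 1 := sub_eq_zero.1 (b3_zero he.1 (by
    have := (hZ.pow q).sub rep_one
    rwa [d1, sub_self] at this))
  have z2 : ∑ j ∈ Finset.range q, Z ^ j = 0 := b3_zero he.1 (hn ▸ Rep.sum _ fun j _ => hZ.pow j)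
  have z3 := b3_theta Z q
  rw [z1, z2, zero_sub, neg_sub_left, neg_add', sub_add_cancel] at z3
  have z4 : Rep e (∑ j ∈ Finset.range q, j • δ ^ j) (∑ j ∈ Finset.range q, j • Z ^ j) :=
    Rep.sum _ fun j _ v => by
      rw [smul_mulVec, map_nsmul, hZ.pow j]
      rfl
  generalize ∑ j ∈ Finset.range q, j • Z ^ j = Θ at z3 z4
  have z5 : (1 - Z).det ≠ 0 := fun k => by
    have := congrArg det z3
    rw [det_mul, k, zero_mul, ← Nat.cast_smul_eq_nsmul ℚ_[l], ← neg_smul, det_smul, det_one,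
      mul_one] at this
    exact pow_ne_zero _ (neg_ne_zero.2 (Nat.cast_ne_zero.2 q0)) this.symm
  obtain ⟨v, v1, v2, v3⟩ := exists_prim hq he.1 hZ z1 z5 ((h.conj p he.1 hZ id (c := 1)
    (fun t => by rw [one_mul]; rfl) hδ).trans (one_smul _ _)) h0
  have s1 : ∀ (n : ℕ) (c : ℚ_[l]) (w : ι → ℚ_[l]), n • e (c • w) = e ((n * c) • w) :=
    fun n c w => by rw [← map_nsmul, ← Nat.cast_smul_eq_nsmul ℚ_[l], smul_smul]
  have c0 : (q : ℚ_[l]) ≠ 0 := Nat.cast_ne_zero.2 q0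
  have c1 : ((q * l : ℕ) : ℚ_[l]) = l ^ (a + 2) := by rw [hN, Nat.cast_pow]
  have c2 : (l : ℚ_[l]) ^ (a + 2) ≠ 0 := pow_ne_zero _ t2_ne
  obtain ⟨x, hx⟩ : ∃ x, x = e (((l : ℚ_[l]) ^ (a + 2))⁻¹ • v) := ⟨_, rfl⟩
  have x1 : l • x = e ((q : ℚ_[l])⁻¹ • v) := by
    rw [hx, s1, ← c1, Nat.cast_mul, _root_.mul_inv_rev, mul_inv_cancel_left₀ t2_ne]
  have x2 : (q * l) • x = 0 := by rw [hx, s1, c1, mul_inv_cancel₀ c2, one_smul, v1]
  obtain ⟨y, ζ, w1, w2⟩ := nd (l • x) (by rw [← mul_smul, x2]) fun k => by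
    rw [x1, ← z4] at k
    refine v3 (-(Θ *ᵥ ((q : ℚ_[l])⁻¹ • v))) (by rw [map_neg, k, neg_zero]) ?_
    rw [mulVec_neg, mulVec_mulVec, z3, neg_mulVec, neg_neg, smul_mulVec, one_mulVec,
      ← Nat.cast_smul_eq_nsmul ℚ_[l], smul_inv_smul₀ c0]
  obtain ⟨y', rfl⟩ : ∃ y', y = l • y' := by
    obtain ⟨u, hu⟩ : ∃ u, ((1 - δ) ^ q) u = y := by
      generalize q = n
      induction n with
      | zero => exact ⟨y, rfl⟩
      | succ n ih =>
        obtain ⟨u, hu⟩ := ih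
        obtain ⟨u', hu'⟩ := hs u
        exact ⟨u', by rw [← hu, ← hu', pow_succ]; rfl⟩
    obtain ⟨r, hr⟩ := b3_poly l (a + 1)
    rw [hq, hr _ δ (hq ▸ d1)] at hu
    exact ⟨_, hu.symm⟩
  have y1 : (q * l) • y' = 0 := by rw [mul_smul, (p.tor w1).2]
  have e1 : (δ ^ (q / l)) ^ l = 1 := by
    rw [← pow_mul, Nat.div_mul_cancel (hq ▸ dvd_pow_self l a.succ_ne_zero), d1]
  have e2 : ∀ (n : ℕ) x y ζ, W (q * l) x y ζ → W (q * l) ((δ ^ n) x) ((δ ^ n) y) ζ :=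
    fun n x y ζ k => by
      induction n with
      | zero => exact k
      | succ n ih =>
        rw [pow_succ']
        exact hδ _ _ _ _ ih
  have e3 : ∀ (n : ℕ) x y ζ, W (q * l) x y ζ →
      W (q * l) (((δ ^ (q / l)) ^ n) x) (((δ ^ (q / l)) ^ n) y) ζ := fun n => by
    rw [← pow_mul]
    exact e2 _
  generalize δ ^ (q / l) = η at he e1 e3
  have t1 : ∀ (θ : AddMonoid.End A) u, (q * l) • u = 0 → (q * l) • θ u = 0 := fun θ u hu => by
    rw [← map_nsmul, hu, map_zero]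
  have t2 : ∀ (f : ℕ → AddMonoid.End A) u, (∑ j ∈ Finset.range l, f j) u =
      ∑ j ∈ Finset.range l, f j u := fun f u => AddMonoidHom.finsetSum_apply f _ u
  choose c hc using fun j : ℕ => p.ex N0 (t1 (η ^ j) x x2) y1
  have g1 := p.sum N0 y1 (Finset.range l) fun j _ => hc j
  have g2 := p.sum' N0 x2 (Finset.range l) (u := fun j => (η ^ (l - j)) y') (c := c) fun j hj => by
    have := e3 (l - j) _ _ _ (hc j)
    rwa [← Function.comp_apply (f := ⇑(η ^ (l - j))), ← AddMonoid.End.coe_mul, ← pow_add,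
      Nat.sub_add_cancel (Finset.mem_range.1 hj).le, e1] at this
  have g3 : ∑ j ∈ Finset.range l, (η ^ j) x = 0 := by
    obtain ⟨u, hu⟩ := ((he.2 x).1 ⟨_, hx.symm⟩).1
    rw [← hu, ← t2]
    change ((∑ j ∈ Finset.range l, η ^ j) * (1 - η)) u = 0
    rw [geom_sum_mul_neg, e1, sub_self]
    rfl
  rw [g3] at g1
  rw [p.uniq N0 g1 (p.zero N0 y1)] at g2
  have g4 : l • y' - ∑ j ∈ Finset.range l, (η ^ (l - j)) y' =
      (1 - η) ((∑ j ∈ Finset.range l, ∑ i ∈ Finset.range (l - j), η ^ i) y') := by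
    change _ = ((1 - η) * ∑ j ∈ Finset.range l, ∑ i ∈ Finset.range (l - j), η ^ i) y'
    simp only [Finset.mul_sum (f := fun j => ∑ i ∈ Finset.range (l - j), η ^ i), mul_neg_geom_sum,
      Finset.sum_sub_distrib, Finset.sum_const, Finset.card_range]
    rw [← t2]
    rfl
  obtain ⟨w, hw⟩ := (he.2 _).2 ⟨⟨_, g4.symm⟩, a + 2, by rw [← hN, g4, t1 _ _ (t1 _ _ y1)]⟩
  have g5 := h.2 (a + 2) v (((l : ℚ_[l]) ^ (a + 2)) • w) v1 (by
    rw [← c1, Nat.cast_smul_eq_nsmul, map_nsmul, hw, g4, t1 _ _ (t1 _ _ y1)])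
  rw [inv_smul_smul₀ c2, hw, ← hx, ← hN, dotProduct_mulVec, ← mulVec_transpose, h.skew p he.1,
    neg_mulVec, v2, neg_zero, zero_dotProduct, mul_zero, map_zero] at g5
  have g6 := p.add' N0 g2 g5
  rw [add_sub_cancel, one_mul] at g6
  exact w2 (p.uniq N0 (p.comp q0 hl.ne_zero w1) g6)

end Pool.Agent.Lib.MP_d61fbb_ag.WP
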