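import Pool.Agent.Lib.MP_d61fbb_ag.WP.D

/-! The order at infinity on a superelliptic curve. -/

set_option autoImplicit false

noncomputable section

namespace Pool.Agent.Lib.MP_d61fbb_ag.WP

open Polynomial Pool.Agent.Lib.MP_d61fbb_ag.SQ

section val

variable {L Γ : Type} [Field L] [LinearOrderedCommGroupWithZero Γ] {v : Valuation L Γ}

/-- Two elements with the same leading term. -/
def o1_As (v : Valuation L Γ) (u w : L) : Prop := v (u - w) < v w

theorem o1_eq {u w : L} (h : o1_As v u w) : v u = v w := v.map_eq_of_sub_lt h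

theorem o1_pos {u w : L} (h : o1_As v u w) : 0 < v w := zero_le.trans_lt h

theorem o1_refl {w : L} (h : w ≠ 0) : o1_As v w w := by
  rw [o1_As, sub_self, map_zero]
  exact (v.pos_iff).2 h

theorem o1_symm {u w : L} (h : o1_As v u w) : o1_As v w u := by
  rw [o1_As, v.map_sub_swap, o1_eq h]
  exact h

theorem o1_trans {u w t : L} (h : o1_As v u w) (h' : o1_As v w t) : o1_As v u t := by
  rw [o1_As, ← sub_add_sub_cancel u w t]
  exact v.map_add_lt (o1_eq h' ▸ h) h'

theorem o1_mul {u w u' w' : L} (h : o1_As v u w) (h' : o1_As v u' w') :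
    o1_As v (u * u') (w * w') := by
  have e : u * u' - w * w' = (u - w) * u' + w * (u' - w') := by ring
  rw [o1_As, e, map_mul]
  refine v.map_add_lt ?_ ?_
  · rw [map_mul, o1_eq h']
    exact mul_lt_mul_of_pos_right h (o1_pos h')
  · rw [map_mul]
    exact mul_lt_mul_of_pos_left h' (o1_pos h)

theorem o1_pow {u w : L} (h : o1_As v u w) (n : ℕ) : o1_As v (u ^ n) (w ^ n) := by
  induction n with
  | zero => simpa using o1_refl one_ne_zero
  | succ n ih => rw [pow_succ, pow_succ]; exact o1_mul ih h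

theorem o1_inv {u w : L} (h : o1_As v u w) : o1_As v u⁻¹ w⁻¹ := by
  have hw : w ≠ 0 := v.pos_iff.1 (o1_pos h)
  have hu : u ≠ 0 := v.pos_iff.1 (o1_pos (o1_symm h))
  have e := o1_mul (o1_symm h) (o1_refl (v := v) (mul_ne_zero (inv_ne_zero hu) (inv_ne_zero hw)))
  rwa [mul_comm u⁻¹, mul_inv_cancel_left₀ hw, mul_comm w⁻¹, mul_inv_cancel_left₀ hu] at e

theorem o1_zpow {u w : L} (h : o1_As v u w) (n : ℤ) : o1_As v (u ^ n) (w ^ n) := by
  obtain ⟨n, rfl | rfl⟩ := n.eq_nat_or_neg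
  · simpa using o1_pow h n
  · simpa using o1_inv (o1_pow h n)

theorem o1_gen {k R : Type} [Field k] [CommRing R] [Algebra k R] [Algebra k L] (φ : R →+* L)
    (hk : ∀ c, φ (algebraMap k R c) = algebraMap k L c)
    (hv : ∀ c : k, c ≠ 0 → v (algebraMap k L c) = 1) {π : L} (hπ : 1 < v π)
    (hex : ∀ u, u ≠ 0 → ∃ (N : ℕ) (c : k), o1_As v (φ u) (algebraMap k L c * π ^ N))
    (hcof : ∃ m0, ∀ m, m0 ≤ m → ∃ u, o1_As v (φ u) (π ^ m)) :
    ∃ (ord : R → ℕ) (lc : R → k), Ord ord lc := by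
  classical
  have hp : 0 < v π := zero_lt_one.trans hπ
  have hp0 : π ≠ 0 := v.pos_iff.1 hp
  have c0 : ∀ {w : L} {N : ℕ} {c : k}, o1_As v w (algebraMap k L c * π ^ N) → c ≠ 0 := by
    rintro w N c h rfl
    simpa using o1_pos h
  have vN : ∀ {w : L} {N : ℕ} {c : k}, o1_As v w (algebraMap k L c * π ^ N) →
      v w = v π ^ N := fun h => by
    rw [o1_eq h, map_mul, hv _ (c0 h), one_mul, map_pow]
  have uq : ∀ {w : L} {N N' : ℕ} {c c' : k}, o1_As v w (algebraMap k L c * π ^ N) →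
      o1_As v w (algebraMap k L c' * π ^ N') → N = N' ∧ c = c' := by
    intro w N N' c c' h h'
    obtain rfl : N = N' := pow_right_injective₀ hp hπ.ne' ((vN h).symm.trans (vN h'))
    refine ⟨rfl, by_contra fun e => ?_⟩
    have h2 := o1_trans (o1_symm h) h'
    rw [o1_As, ← sub_mul, ← map_sub, map_mul, map_mul, hv _ (sub_ne_zero.2 e), hv _ (c0 h')] at h2
    exact lt_irrefl _ h2
  have nz : ∀ {u : R} {w : L}, o1_As v (φ u) w → u ≠ 0 := by
    rintro u w h rfl
    simpa using o1_pos (o1_symm h)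
  have hex' : ∀ u, ∃ (N : ℕ) (c : k), (u = 0 → N = 0 ∧ c = 0) ∧
      (u ≠ 0 → o1_As v (φ u) (algebraMap k L c * π ^ N)) := fun u => by
    by_cases h : u = 0
    · exact ⟨0, 0, fun _ => ⟨rfl, rfl⟩, fun e => (e h).elim⟩
    · obtain ⟨N, c, e⟩ := hex u h
      exact ⟨N, c, fun e => (h e).elim, fun _ => e⟩
  choose ord lc z0 z1 using hex'
  have ch : ∀ {u : R} {N : ℕ} {c : k}, o1_As v (φ u) (algebraMap k L c * π ^ N) →
      ord u = N ∧ lc u = c := fun h => uq (z1 _ (nz h)) h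
  have mu : ∀ u w, u ≠ 0 → w ≠ 0 → ord (u * w) = ord u + ord w ∧ lc (u * w) = lc u * lc w :=
    fun u w hu hw => ch (by
      have e := o1_mul (z1 u hu) (z1 w hw)
      rwa [← map_mul, mul_mul_mul_comm, ← map_mul, ← pow_add] at e)
  have co : ∀ c : k, ord (algebraMap k R c) = 0 ∧ lc (algebraMap k R c) = c := fun c => by
    by_cases h : c = 0
    · rw [h, map_zero]
      exact z0 0 rfl
    · refine ch ?_
      rw [hk, pow_zero, mul_one]
      exact o1_refl ((_root_.map_ne_zero _).2 h)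
  have le : ∀ u, v (φ u) ≤ v π ^ ord u := fun u => by
    by_cases h : u = 0
    · simp [h]
    · exact (vN (z1 u h)).le
  refine ⟨ord, lc, fun u => ⟨fun h => by_contra fun e => c0 (z1 u e) h, fun h => (z0 u h).2⟩,
    fun u w hu hw => (mu u w hu hw).1, fun u w => ?_, fun c => (co c).1, fun c => (co c).2,
    fun u w h => ?_, fun u w h h' => ?_, ?_⟩
  · by_cases hu : u = 0
    · rw [hu, zero_mul, (z0 0 rfl).2, zero_mul]
    by_cases hw : w = 0
    · rw [hw, mul_zero, (z0 0 rfl).2, mul_zero]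
    exact (mu u w hu hw).2
  · have hu : u ≠ 0 := fun e => by
      rw [(z0 u e).1] at h
      exact Nat.not_lt_zero _ h
    refine ch (o1_trans ?_ (z1 u hu))
    rw [o1_As, map_add, add_sub_cancel_left, vN (z1 u hu)]
    exact (le w).trans_lt (pow_lt_pow_right₀ hπ h)
  · refine or_iff_not_imp_left.2 fun e => ?_
    have hu : u ≠ 0 := fun e' => e (by
      rw [(z0 u e').2] at h'
      exact e'.trans (by_contra fun e'' => c0 (z1 w (Ne.symm e'')) h'.symm))
    have hw : w ≠ 0 := fun e' => by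
      rw [(z0 w e').2] at h'
      exact c0 (z1 u hu) h'
    have h1 := z1 u hu
    rw [h, h'] at h1
    have h2 := o1_trans h1 (o1_symm (z1 w hw))
    rw [o1_As, ← map_sub, vN (z1 _ (sub_ne_zero.2 e)), vN (z1 w hw), ← h] at h2
    exact (pow_lt_pow_iff_right₀ hπ).1 h2
  · obtain ⟨m0, h⟩ := hcof
    refine ⟨m0, fun m hm => ?_⟩
    obtain ⟨u, hu⟩ := h m hm
    exact ⟨u, nz hu, (ch (c := 1) (by rwa [map_one, one_mul])).1⟩

theorem o1_poly {k : Type} [Field k] [Algebra k L] [v.IsTrivialOn k] {x : L} (hx : 1 < v x)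
    {g : k[X]} (hg : g ≠ 0) :
    o1_As v (aeval x g) (algebraMap k L g.leadingCoeff * x ^ g.natDegree) := by
  have e : aeval x g - algebraMap k L g.leadingCoeff * x ^ g.natDegree = aeval x g.eraseLead := by
    rw [← self_sub_C_mul_X_pow, map_sub, map_mul, map_pow, aeval_C, aeval_X]
  rw [o1_As, e, map_mul, Valuation.IsTrivialOn.eq_one _ (leadingCoeff_ne_zero.2 hg), one_mul,
    map_pow]
  by_cases h : g.eraseLead = 0
  · rw [h, map_zero, map_zero]
    exact pow_pos (zero_lt_one.trans hx) _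
  · rw [valuation_aeval_eq_valuation_X_pow_natDegree_of_one_lt_valuation_X _ hx h]
    exact pow_lt_pow_right₀ hx ((eraseLead_natDegree_lt_or_eraseLead_eq_zero g).resolve_right h)

theorem o1_pi {x y : L} {l n : ℕ} (hc : l.Coprime n) (hx : x ≠ 0) (hy : y ≠ 0)
    (h : o1_As v (y ^ l) (x ^ n)) : ∃ π : L, o1_As v x (π ^ l) ∧ o1_As v y (π ^ n) := by
  obtain ⟨a, b, e⟩ := Nat.isCoprime_iff_coprime.2 hc
  refine ⟨x ^ a * y ^ b, ?_, ?_⟩
  · have e1 : x = x ^ (a * l) * (x ^ n) ^ b := by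
      rw [← zpow_natCast, ← zpow_mul, ← zpow_add₀ hx, mul_comm (n : ℤ), e, zpow_one]
    have e2 : (x ^ a * y ^ b) ^ l = x ^ (a * l) * (y ^ l) ^ b := by
      rw [mul_pow, ← zpow_natCast, ← zpow_natCast, ← zpow_natCast, ← zpow_mul, ← zpow_mul,
        ← zpow_mul, mul_comm b]
    rw [e2]
    nth_rw 1 [e1]
    exact o1_mul (o1_refl (zpow_ne_zero _ hx)) (o1_zpow (o1_symm h) b)
  · have e1 : y = (y ^ l) ^ a * y ^ (b * n) := by
      rw [← zpow_natCast, ← zpow_mul, ← zpow_add₀ hy, mul_comm (l : ℤ), e, zpow_one]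
    have e2 : (x ^ a * y ^ b) ^ n = (x ^ n) ^ a * y ^ (b * n) := by
      rw [mul_pow, ← zpow_natCast, ← zpow_natCast, ← zpow_natCast, ← zpow_mul, ← zpow_mul,
        ← zpow_mul, mul_comm a]
    rw [e2]
    nth_rw 1 [e1]
    exact o1_mul (o1_zpow h a) (o1_refl (zpow_ne_zero _ hy))

end val

theorem exists_ord {k : Type} [Field k] {l : ℕ} (f : k[X]) [Sm l f] :
    ∃ (ord : Crv k l f → ℕ) (lc : Crv k l f → k), Ord ord lc := by
  classical
  have hs : Sm l f := inferInstance
  have hx : Transcendental k (pl l f X) := fun ⟨p, h1, h2⟩ =>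
    h1 (pl_inj (l := l) (f := f) (by rw [c5_pl p, h2, map_zero]))
  obtain ⟨V, _, hV⟩ := c5_val hx
  have hx0 : pl l f X ≠ 0 := fun e => hx (e ▸ isAlgebraic_zero)
  have hv : ∀ c : k, c ≠ 0 → V.valuation (algebraMap k (Fn l f) c) = 1 :=
    Valuation.IsTrivialOn.eq_one
  have hp : ∀ {g : k[X]}, g ≠ 0 → o1_As V.valuation (pl l f g)
      (algebraMap k (Fn l f) g.leadingCoeff * pl l f X ^ g.natDegree) := fun {g} hg => by
    rw [c5_pl g]
    exact o1_poly hV hg
  obtain ⟨π, h1, h2⟩ := o1_pi (v := V.valuation) hs.cop hx0 yl_ne (by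
    have e := hp hs.monic.ne_zero
    rwa [hs.monic.leadingCoeff, map_one, one_mul, ← yl_pow] at e)
  have hπ : 1 < V.valuation π := by
    rw [o1_eq h1, map_pow] at hV
    exact (one_lt_pow_iff_of_nonneg zero_le hs.one_lt.ne_bot).1 hV
  have hm : ∀ i j : ℕ, o1_As V.valuation (pl l f X ^ i * yl l f ^ j)
      (π ^ (l * i + f.natDegree * j)) := fun i j => by
    rw [pow_add, pow_mul, pow_mul]
    exact o1_mul (o1_pow h1 i) (o1_pow h2 j)
  refine o1_gen (v := V.valuation) (io l f) (fun _ => rfl) hv hπ (fun u hu => ?_) ?_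
  · obtain ⟨G, hG, rfl⟩ := exists_rep hs.one_lt.ne_bot u
    have h0 : G ≠ 0 := fun e => hu (by rw [e, map_zero])
    have ht : ∀ i ∈ G.support, o1_As V.valuation (pl l f (G.coeff i) * yl l f ^ i)
        (algebraMap k (Fn l f) (G.coeff i).leadingCoeff *
          π ^ (l * (G.coeff i).natDegree + f.natDegree * i)) := fun i hi => by
      refine o1_trans (o1_mul (hp (mem_support_iff.1 hi)) (o1_refl (pow_ne_zero i yl_ne))) ?_
      rw [mul_assoc]
      exact o1_mul (o1_refl ((_root_.map_ne_zero _).2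
        (leadingCoeff_ne_zero.2 (mem_support_iff.1 hi)))) (hm _ _)
    have hw : ∀ i ∈ G.support, V.valuation (pl l f (G.coeff i) * yl l f ^ i) =
        V.valuation π ^ (l * (G.coeff i).natDegree + f.natDegree * i) := fun i hi => by
      rw [o1_eq (ht i hi), map_mul, hv _ (leadingCoeff_ne_zero.2 (mem_support_iff.1 hi)), one_mul,
        map_pow]
    obtain ⟨j, hj, hmx⟩ := G.support.exists_max_image
      (fun i => l * (G.coeff i).natDegree + f.natDegree * i) (support_nonempty.2 h0)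
    have hl : ∀ i ∈ G.support, i < l := fun i hi => by
      exact_mod_cast (le_degree_of_mem_supp i hi).trans_lt hG
    have e : io l f (AdjoinRoot.mk _ G) = ∑ i ∈ G.support, pl l f (G.coeff i) * yl l f ^ i := by
      rw [← AdjoinRoot.aeval_eq, aeval_def, eval₂_eq_sum, Polynomial.sum, map_sum]
      exact Finset.sum_congr rfl fun i _ => by rw [map_mul, map_pow]; rfl
    refine ⟨_, _, o1_trans ?_ (ht j hj)⟩
    rw [o1_As, e, ← Finset.add_sum_erase _ _ hj, add_sub_cancel_left]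
    refine V.valuation.map_sum_lt' (o1_pos (o1_symm (ht j hj))) fun i hi => ?_
    obtain ⟨k2, k1⟩ := Finset.mem_erase.1 hi
    rw [hw i k1, hw j hj]
    refine pow_lt_pow_right₀ hπ (lt_of_le_of_ne (hmx i k1) fun e => k2 ?_)
    have h3 : f.natDegree * i ≡ f.natDegree * j [MOD l] := by
      have h4 := congrArg (· % l) e
      simpa only [Nat.mul_add_mod, Nat.ModEq] using h4
    exact (h3.cancel_left_of_coprime hs.cop).eq_of_lt_of_lt (hl i k1) (hl j hj)
  · refine ⟨l.pred * f.natDegree.pred, fun m h => ?_⟩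
    obtain ⟨a, b, e⟩ := Nat.exists_add_mul_eq_of_gcd_dvd_of_mul_pred_le l f.natDegree m
      (by simp [hs.cop.gcd_eq_one]) h
    refine ⟨po l f X ^ a * cy l f ^ b, ?_⟩
    rw [map_mul, map_pow, map_pow, ← e, mul_comm a, mul_comm b]
    exact hm a b

end Pool.Agent.Lib.MP_d61fbb_ag.WP
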