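import Pool.Agent.Lib.MP_d61fbb_ag.WP.D
import Pool.Agent.Lib.MP_0d42ed_ag.TP.Top
import Pool.Agent.Lib.MP_0d42ed_ag.TP.Out

/-! Change of the alternating form. -/

set_option autoImplicit false

noncomputable section

namespace Pool.Agent.Lib.MP_d61fbb_ag.WP

open Matrix Pool.Agent.Lib.MP_0d42ed_ag.TP Pool.Agent.Lib.MP_d61fbb_ag.SQ

variable {l : ℕ} [Fact l.Prime] {ι Γ : Type} [Fintype ι] [DecidableEq ι] [Group Γ]
  {Z B B' : Matrix ι ι ℚ_[l]} {ρ : Γ →* Matrix ι ι ℚ_[l]} {χ : Γ → ℚ_[l]} {q : ℕ}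

theorem b4_det {N : Matrix ι ι ℚ_[l]} (hN : N.det ≠ 0) :
    (N.map (algebraMap ℚ_[l] (PadicAlgCl l))).det ≠ 0 := by
  rw [← RingHom.mapMatrix_apply, ← RingHom.map_det]
  exact (map_ne_zero_iff _ (algebraMap ℚ_[l] (PadicAlgCl l)).injective).2 hN

/-- Invariant tensors are combinations of matching tensors. -/
theorem b4_ms (hq : q ≠ 0) (k1 : Z ^ q = 1) (k2 : (Z * Z - 1).det ≠ 0) (hB : Bᵀ = -B)
    (hB0 : B.det ≠ 0) (hZB : Zᵀ * B * Z = B) (hρ : ∀ γ, (ρ γ)ᵀ * B * ρ γ = χ γ • B)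
    (hz : ∀ g : Matrix ι ι (PadicAlgCl l), g.det ≠ 0 → (Zar (Set.range ρ) g ↔ GU Z B g))
    (U : Subgroup Γ) [U.FiniteIndex] {i : ℕ} {t : (Fin (2 * i) → ι) → ℚ_[l]}
    (ht : ∀ γ ∈ U, t ᵥ* tp (Fin (2 * i)) (ρ γ) = χ γ ^ i • t) :
    t ∈ MS (Fin (2 * i)) i {N | ∃ j : ℕ, N = B * Z ^ j} := by
  obtain ⟨M, hM, hcl⟩ := closure_inv (S := Fin (2 * i)) hB0 ρ _ hρ U (i := i)
  refine MS_descend (Ω := PadicAlgCl l) (MS_mono ?_ (MP_0d42ed_ag.TP.core (q := q)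
    (Z := Z.map (algebraMap _ _)) (B := B.map (algebraMap _ _)) hq ?_ ?_ ?_ (b4_det hB0) ?_
    (Fintype.card_fin _) hM _ fun g g1 g2 => hcl _ ht g ?_ g2))
  · rintro _ ⟨j, rfl⟩
    refine ⟨_, ⟨j, rfl⟩, ?_⟩
    simp only [← RingHom.mapMatrix_apply, map_mul, map_pow]
  · rw [← RingHom.mapMatrix_apply, ← map_pow, k1, map_one]
  · have := b4_det k2
    simpa only [← RingHom.mapMatrix_apply, map_mul, map_sub, map_one] using this
  · rw [← transpose_map, hB, Matrix.map_neg _ (map_neg _)]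
  · rw [← transpose_map, ← Matrix.map_mul, ← Matrix.map_mul, hZB]
  · have d : g.det ≠ 0 := fun z => b4_det hB0 (by rw [← g2, det_mul, z, mul_zero])
    exact (hz g d).2 ⟨g1, 1, by rw [g2, one_smul]⟩

theorem b4_transpose (hq : q ≠ 0) (k1 : Z ^ q = 1) (hB : Bᵀ = -B) (hZB : Zᵀ * B * Z = B) (j : ℕ) :
    (B * Z ^ j)ᵀ = -(B * Z ^ ((q - 1) * j)) := by
  have h1 : Zᵀ * B = B * Z ^ (q - 1) := by
    conv_rhs => rw [← hZB, Matrix.mul_assoc, ← pow_succ', Nat.sub_add_cancel (by omega), k1,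
      Matrix.mul_one]
  have h2 : Zᵀ ^ j * B = B * Z ^ ((q - 1) * j) := by
    induction j with
    | zero => simp
    | succ j ih =>
      rw [pow_succ', Matrix.mul_assoc, ih, ← Matrix.mul_assoc, h1, Matrix.mul_assoc, ← pow_add,
        mul_add, mul_one, add_comm]
  rw [transpose_mul, transpose_pow, hB, Matrix.mul_neg, h2]

/-- An invariant form is the product of `B` with a polynomial in `Z`. -/
theorem b4_form (hq : q ≠ 0) (k1 : Z ^ q = 1) (hB : Bᵀ = -B) (hZB : Zᵀ * B * Z = B)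
    {t : (Fin (2 * 1) → ι) → ℚ_[l]} (ht : t ∈ MS (Fin (2 * 1)) 1 {N | ∃ j : ℕ, N = B * Z ^ j}) :
    ∃ θ : Matrix ι ι ℚ_[l], (Matrix.of fun a b => t ![a, b]) = B * θ ∧
      ∀ g : Matrix ι ι (PadicAlgCl l), Commute g (Z.map (algebraMap _ _)) →
        Commute g (θ.map (algebraMap _ _)) := by
  have hp : ∀ (j : ℕ) (g : Matrix ι ι (PadicAlgCl l)), Commute g (Z.map (algebraMap _ _)) →
      Commute g ((Z ^ j).map (algebraMap _ _)) := fun j g h => by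
    rw [← RingHom.mapMatrix_apply, map_pow]
    exact h.pow_right j
  induction ht using Submodule.span_induction with
  | mem x hx =>
    obtain ⟨e, M, hM, rfl⟩ := hx
    obtain ⟨j, hj⟩ := hM 0
    have h1 : ∀ u v : Fin (2 * 1), u ≠ v → (u = 0 ∧ v = 1) ∨ (u = 1 ∧ v = 0) := by decide
    rcases h1 (e (.inl 0)) (e (.inr 0)) (fun h => by simpa using e.injective h) with h | h
    · refine ⟨Z ^ j, ?_, hp j⟩
      ext a b
      simp [MP_0d42ed_ag.TP.mt, h.1, h.2, hj]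
    · refine ⟨-Z ^ ((q - 1) * j), ?_, fun g hg => ?_⟩
      · rw [Matrix.mul_neg, ← b4_transpose hq k1 hB hZB, ← hj]
        ext a b
        simp [MP_0d42ed_ag.TP.mt, h.1, h.2]
      · rw [Matrix.map_neg _ (map_neg _)]
        exact (hp _ g hg).neg_right
  | zero => exact ⟨0, by ext; simp, fun g _ => by simp⟩
  | add x y _ _ hx hy =>
    obtain ⟨θ, h1, h2⟩ := hx
    obtain ⟨θ', h3, h4⟩ := hy
    refine ⟨θ + θ', ?_, fun g hg => ?_⟩
    · rw [Matrix.mul_add, ← h1, ← h3]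
      rfl
    · rw [Matrix.map_add _ (map_add _)]
      exact (h2 g hg).add_right (h4 g hg)
  | smul c x _ hx =>
    obtain ⟨θ, h1, h2⟩ := hx
    refine ⟨c • θ, ?_, fun g hg => ?_⟩
    · rw [Matrix.mul_smul, ← h1]
      rfl
    · have h3 : (c • θ).map (algebraMap ℚ_[l] (PadicAlgCl l)) =
          algebraMap ℚ_[l] (PadicAlgCl l) c • θ.map (algebraMap _ _) := by
        ext a b
        simp
      rw [h3]
      exact (h2 g hg).smul_right _

theorem gu_congr (hq : q ≠ 0) (k1 : Z ^ q = 1) (k2 : (Z * Z - 1).det ≠ 0) (hB : Bᵀ = -B)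
    (hB0 : B.det ≠ 0) (hZB : Zᵀ * B * Z = B) (hρ : ∀ γ, (ρ γ)ᵀ * B * ρ γ = χ γ • B)
    (hz : ∀ g : Matrix ι ι (PadicAlgCl l), g.det ≠ 0 → (Zar (Set.range ρ) g ↔ GU Z B g))
    (h0 : B'.det ≠ 0) (h1 : ∀ γ, (ρ γ)ᵀ * B' * ρ γ = χ γ • B') (g : Matrix ι ι (PadicAlgCl l)) :
    GU Z B g ↔ GU Z B' g := by
  let e : Fin 1 ⊕ Fin 1 ≃ Fin (2 * 1) := finSumFinEquiv
  have e1 : e (.inl 0) = 0 := rfl
  have e2 : e (.inr 0) = 1 := rfl
  obtain ⟨θ, t1, t2⟩ := b4_form hq k1 hB hZB (b4_ms hq k1 k2 hB hB0 hZB hρ hz ⊤ (i := 1)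
    (t := MP_0d42ed_ag.TP.mt e fun _ => B') fun γ _ => by
      rw [mt_vecMul]
      funext I
      simp [MP_0d42ed_ag.TP.mt, h1])
  have t3 : B' = B * θ := by
    rw [← t1]
    ext a b
    simp [MP_0d42ed_ag.TP.mt, e1, e2]
  have t4 : θ.det ≠ 0 := fun h => h0 (by rw [t3, det_mul, h, mul_zero])
  have t5 := (Matrix.isUnit_iff_isUnit_det _).2 (b4_det t4).isUnit
  refine and_congr_right fun hg => exists_congr fun ν => ?_
  rw [t3, Matrix.map_mul, ← Matrix.mul_assoc, Matrix.mul_assoc _ (θ.map _) g, ← (t2 g hg).eq,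
    ← Matrix.mul_assoc, ← smul_mul_assoc]
  exact t5.mul_left_inj.symm

theorem genPow_of (hq : q ≠ 0) (k1 : Z ^ q = 1) (k2 : (Z * Z - 1).det ≠ 0) (hB : Bᵀ = -B)
    (hB0 : B.det ≠ 0) (hZB : Zᵀ * B * Z = B) (hρ : ∀ γ, (ρ γ)ᵀ * B * ρ γ = χ γ • B)
    (hz : ∀ g : Matrix ι ι (PadicAlgCl l), g.det ≠ 0 → (Zar (Set.range ρ) g ↔ GU Z B g)) (m : ℕ) :
    GenPow ρ χ Z B m := by
  have inj := (algebraMap ℚ_[l] (PadicAlgCl l)).injective
  have hc : ∀ γ, ρ γ * Z = Z * ρ γ := fun γ => by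
    have d : (ρ γ).det ≠ 0 :=
      (isUnit_det_of_right_inverse (B := ρ γ⁻¹) (by rw [← map_mul, mul_inv_cancel, map_one])).ne_zero
    have k : Zar (Set.range ρ) ((ρ γ).map (algebraMap ℚ_[l] (PadicAlgCl l))) := fun p hp => by
      have e1 : MvPolynomial.aeval (fun ij : ι × ι => ρ γ ij.1 ij.2) p = 0 := hp _ ⟨γ, rfl⟩
      have e2 := MvPolynomial.aeval_algebraMap_apply (PadicAlgCl l)
        (fun ij : ι × ι => ρ γ ij.1 ij.2) p
      rw [e1, map_zero] at e2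
      exact e2
    have := ((hz _ (b4_det d)).1 k).1
    rw [← Matrix.map_mul, ← Matrix.map_mul] at this
    exact Matrix.map_injective inj this
  intro i U hU
  change tate ρ χ m U i = dv Z B m ^ i
  refine le_antisymm (fun x hx => ?_)
    (le_trans (pow_le_pow_left' (Submodule.span_le.2 ?_) i) (tate_pow _ _ U i))
  · obtain ⟨t, rfl, ht⟩ := exists_coord hx.1
    refine Submodule.sum_mem _ fun α _ => ms_mem (𝓜 := {N | ∃ j : ℕ, N = B * Z ^ j}) ?_ α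
      (b4_ms hq k1 k2 hB hB0 hZB hρ hz U fun γ hγ => ht _ _ ?_ α)
    · rintro _ ⟨j, rfl⟩ a b
      exact Submodule.subset_span ⟨a, b, j, rfl⟩
    · have := hx.2
      simp only [Submodule.coe_iInf, Set.mem_iInter] at this
      exact Module.End.mem_eigenspace_iff.1 (this γ hγ)
  · rintro _ ⟨a, b, j, rfl⟩
    refine form_mem (fun γ => ?_) a b
    have : Z ^ j * ρ γ = ρ γ * Z ^ j := ((Commute.pow_right (hc γ) j).eq).symm
    rw [← Matrix.mul_assoc, Matrix.mul_assoc _ (Z ^ j), this, ← Matrix.mul_assoc, hρ,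
      smul_mul_assoc]

end Pool.Agent.Lib.MP_d61fbb_ag.WP
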