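import Pool.Agent.Lib.MP_d61fbb_ag.WP.Defs
import Pool.Agent.Lib.MP_0d42ed_ag.TP.Out

/-! Tate classes are polynomials in divisor classes. -/

set_option autoImplicit false

noncomputable section

namespace Pool.Agent.Lib.MP_d61fbb_ag.WP

open Matrix Pool.Agent.Lib.MP_0d42ed_ag.TP Pool.Agent.Lib.MP_d61fbb_ag.SQ

/-- In Tate coordinates on the image of `1 - δ ^ n`, with `B` the matrix of the pairing `W`, the
Tate classes on every power are the polynomials in the classes of the forms `B Z ^ j`. -/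
def TateW {l : ℕ} [Fact l.Prime] {k A Γ : Type} [Field k] [AddCommGroup A] [Group Γ] (ι : Type)
    [Fintype ι] [DecidableEq ι] (W : ℕ → A → A → k → Prop) (δ : AddMonoid.End A) (n : ℕ)
    (act : Γ → AddMonoid.End A) (χ : Γ → ℤ_[l]) : Prop :=
  ∃ (e : (ι → ℚ_[l]) →+ A) (ω : ℚ_[l] →+ Additive kˣ) (Z B : Matrix ι ι ℚ_[l])
    (ρ : Γ → Matrix ι ι ℚ_[l]),
    TateOn e (1 - δ ^ n) ∧ Rep e δ Z ∧ (∀ γ, Rep e (act γ) (ρ γ)) ∧ Gram W e ω B ∧
    ∀ m, GenPow ρ (fun γ => (χ γ : ℚ_[l])) Z B m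

end Pool.Agent.Lib.MP_d61fbb_ag.WP
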