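import Pool.Agent.Lib.MP_d61fbb_ag.WP.O1
import Pool.Agent.Lib.MP_d61fbb_ag.WP.V2
import Pool.Agent.Lib.MP_d61fbb_ag.WP.V3
import Pool.Agent.Lib.MP_d61fbb_ag.WP.B3
import Pool.Agent.Lib.MP_d61fbb_ag.WP.B4
import Pool.Agent.Lib.MP_d61fbb_ag.WP.OutT
import Pool.Agent.Lib.MP_d61fbb_ag.SQ.Top
import Pool.Agent.Lib.MP_d61fbb_ag.SQ.CTop
import Pool.Agent.Lib.MP_d61fbb_ag.SQ.ETop
import Pool.Agent.Lib.MP_d61fbb_ag.SQ.FTop

/-! The monodromy theorem with the Weil pairing. -/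

set_option autoImplicit false

noncomputable section

namespace Pool.Agent.Lib.MP_d61fbb_ag.WP

open Matrix Equiv Polynomial Pool.Agent.Lib.MP_0d42ed_ag.TP Pool.Agent.Lib.MP_d61fbb_ag.SQ

theorem Gram.mono {l : ℕ} [Fact l.Prime] {k A ι : Type} [Field k] [AddCommGroup A] [Fintype ι]
    {W W' : ℕ → A → A → k → Prop} {e : (ι → ℚ_[l]) →+ A} {ω : ℚ_[l] →+ Additive kˣ}
    {B : Matrix ι ι ℚ_[l]} (h : Gram W e ω B) (hW : ∀ N x y ζ, W N x y ζ → W' N x y ζ) :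
    Gram W' e ω B :=
  ⟨h.1, fun j v w hv hw => hW _ _ _ _ (h.2 j v w hv hw)⟩

theorem both {K : Type} [Field K] [NumberField K] {l a q d : ℕ} [Fact l.Prime] (hq : q = l ^ a)
    (h2 : 2 < q) {z : K} (hz : IsPrimitiveRoot z q) (hn : ¬ l ∣ d + 1) {f : K[X]}
    {r : Fin (d + 1) → AlgebraicClosure K} (hr : Function.Injective r)
    (hf : bar f = ∏ i, (X - C (r i))) {ι : Type} [Fintype ι] [DecidableEq ι]
    (h : FullMono ι (rot f hz) (q / l) (gal q f)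
      fun γ => (cyclotomicCharacter _ l γ.toRingEquiv).val) :
    FullW (k := AlgebraicClosure K) l ι Weil (rot f hz) (q / l) (gal q f) ∧
      TateW (k := AlgebraicClosure K) ι Weil (rot f hz) (q / l) (gal q f)
        fun γ => (cyclotomicCharacter _ l γ.toRingEquiv).val := by
  obtain ⟨e, Z, B, ρ, h1, h3, h4, hB, hB0, hZB, hρ, hc⟩ := h
  obtain ⟨k1, k2⟩ := order_of_tate hq h2 (rot_pow f hz) h1 h3
  have hp' : l.Prime := Fact.out
  have hz' : IsPrimitiveRoot (algebraMap K (AlgebraicClosure K) z) q :=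
    hz.map_of_injective (algebraMap K _).injective
  have hco : q.Coprime (d + 1) := hq ▸ Nat.Coprime.pow_left _ (hp'.coprime_iff_not_dvd.2 hn)
  have H : Hyp q d (bar f) r := ⟨by omega, Nat.cast_ne_zero.2 (by omega), hco, hr, hf⟩
  have := H.sm
  obtain ⟨a, rfl⟩ : ∃ j, a = j + 1 := Nat.exists_eq_succ_of_ne_zero (by rintro rfl; simp_all)
  obtain ⟨ord, lc, o⟩ := exists_ord (l := q) (bar f)
  obtain ⟨ω, w1, w2, w3⟩ := exists_mu (AlgebraicClosure K) l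
  have p := pair_wv o
  obtain ⟨B', g⟩ := exists_gram p h1.1 w1 w2
  have hδ : ∀ N x y ζ, WV lc N x y ζ → WV lc N (rot f hz x) (rot f hz y) ζ := fun N x y ζ k =>
    wv_au o (rt (bar f) hz') k
  have hm : ∀ γ : AlgebraicClosure K ≃ₐ[K] AlgebraicClosure K,
      (bar f).map γ.toRingEquiv.toRingHom = bar f := fun γ => by
    rw [Polynomial.map_map]
    exact congrArg (Polynomial.map · f) (RingHom.ext fun a => γ.commutes a)
  have g1 := g.skew p h1.1
  have g2 : Zᵀ * B' * Z = B' :=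
    (g.conj p h1.1 h3 id (c := 1) (fun t => by rw [one_mul, id]) hδ).trans (one_smul _ _)
  have g3 : ∀ γ, (ρ γ)ᵀ * B' * ρ γ =
      (((cyclotomicCharacter _ l γ.toRingEquiv).val : ℤ_[l]) : ℚ_[l]) • B' := fun γ =>
    g.conj p h1.1 (h4 γ) γ.toRingEquiv (w3 _) fun N x y ζ k => wv_au o (ga q _ (hm γ)) k
  have g4 : B'.det ≠ 0 := g.det_ne p hq h1 h3 (j_norm hz') (j_surj H hz') hδ fun x hx k =>
    wv_nondeg o H hz' hx k
  have g5 : ∀ u : Matrix ι ι (PadicAlgCl l), u.det ≠ 0 → (Zar (Set.range ρ) u ↔ GU Z B' u) :=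
    fun u hu => (hc u hu).trans (gu_congr (by omega) k1 k2 hB hB0 hZB hρ hc g4 g3 u)
  have g6 := g.mono fun N x y ζ k => wv_weil o k
  exact ⟨⟨e, ω, Z, B', ρ, h1, h3, h4, g6, g4, g5⟩,
    e, ω, Z, B', ρ, h1, h3, h4, g6, genPow_of (by omega) k1 k2 g1 g4 g2 g3 g5⟩

theorem topW (K : Type) [Field K] [NumberField K] (l k q : ℕ) [Fact l.Prime] (hq : q = l ^ k)
    (h2 : 2 < q) (z : K) (hz : IsPrimitiveRoot z q) (n : ℕ) (hn : ¬ l ∣ n) (f : K[X])
    (r : Fin n → AlgebraicClosure K) (hr : Function.Injective r)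
    (hf : bar f = ∏ i, (X - C (r i)))
    (hG : (8 ≤ n ∧ ∀ π ∈ alternatingGroup (Fin n),
        ∃ γ : AlgebraicClosure K ≃ₐ[K] AlgebraicClosure K, ∀ i, γ (r i) = r (π i)) ∨
      (5 ≤ n ∧ ∀ π : Perm (Fin n),
        ∃ γ : AlgebraicClosure K ≃ₐ[K] AlgebraicClosure K, ∀ i, γ (r i) = r (π i))) :
    FullW (k := AlgebraicClosure K) l (Fin (n - 1) × Fin q.totient) Weil (rot f hz) (q / l)
        (gal q f) ∧
      TateW (k := AlgebraicClosure K) (Fin (n - 1) × Fin q.totient) Weil (rot f hz) (q / l) (gal q f)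
        fun γ => (cyclotomicCharacter _ l γ.toRingEquiv).val := by
  have h := top curveStmt contStmt relStmt frobStmt arithStmt K l k q hq h2 z hz n hn f r hr hf hG
  obtain ⟨d, rfl⟩ : ∃ d, n = d + 1 := ⟨n - 1, by omega⟩
  exact both hq h2 hz hn hr hf h

end Pool.Agent.Lib.MP_d61fbb_ag.WP
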