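import Pool.Agent.Lib.MP_d61fbb_ag.WP.D
import Pool.Agent.Lib.MP_d61fbb_ag.SQ.T0
import Pool.Agent.Lib.MP_d61fbb_ag.SQ.T2
import Pool.Agent.Lib.MP_d61fbb_ag.SQ.M1

/-! Tate coordinates on the roots of unity; bilinearity. -/

set_option autoImplicit false

noncomputable section

namespace Pool.Agent.Lib.MP_d61fbb_ag.WP

open Matrix Pool.Agent.Lib.MP_d61fbb_ag.SQ

theorem b1_tower (k : Type) [Field k] [IsAlgClosed k] [CharZero k] {l : ℕ} (hl : l.Prime) :
    ∃ z : ℕ → kˣ, z 0 = 1 ∧ IsPrimitiveRoot (z 1) l ∧ ∀ j, z (j + 1) ^ l = z j := by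
  have : NeZero l := ⟨hl.ne_zero⟩
  have h1 : ∀ u : kˣ, ∃ v : kˣ, v ^ l = u := fun u => by
    obtain ⟨v, hv⟩ := IsAlgClosed.exists_pow_nat_eq u.val hl.pos
    exact ⟨Units.mk0 v fun e => u.ne_zero (by rw [← hv, e, zero_pow hl.ne_zero]),
      Units.ext (by simpa using hv)⟩
  choose r hr using h1
  obtain ⟨x, hx⟩ := HasEnoughRootsOfUnity.exists_primitiveRoot k l
  have h2 := hx.isUnit_unit hl.ne_zero
  refine ⟨fun j => Nat.casesOn j 1 fun j => r^[j] (hx.isUnit hl.ne_zero).unit, rfl, h2,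
    fun j => ?_⟩
  obtain _ | j := j
  · exact h2.pow_eq_one
  · exact (congrArg (· ^ l) (Function.iterate_succ_apply' r j _)).trans (hr _)

theorem exists_mu (k : Type) [Field k] [IsAlgClosed k] [CharZero k] (l : ℕ) [Fact l.Prime] :
    ∃ ω : ℚ_[l] →+ Additive kˣ, (∀ t, ω t = 0 ↔ ‖t‖ ≤ 1) ∧
      (∀ (y : ℕ → k), y 0 = 1 → (∀ j, y (j + 1) ^ l = y j) →
        ∃ b : ℚ_[l], ‖b‖ ≤ 1 ∧ ∀ j : ℕ, (Additive.toMul (ω (((l : ℚ_[l]) ^ j)⁻¹ * b))).val = y j) ∧
      ∀ (σ : k ≃+* k) t, σ (Additive.toMul (ω t)).val =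
        (Additive.toMul (ω (((cyclotomicCharacter k l σ).val : ℚ_[l]) * t))).val := by
  have hl : l.Prime := Fact.out
  have : NeZero l := ⟨hl.ne_zero⟩
  obtain ⟨z, h0, h1, h2⟩ := b1_tower k hl
  obtain ⟨e, he, -⟩ := tate_of_tower (l := l) (ι := Unit) (fun _ j => Additive.ofMul (z j))
    (fun _ => congrArg _ h0) (fun _ j => congrArg Additive.ofMul (h2 j))
    (fun c hc i => (h1.zpow_eq_one_iff_dvd _).1 (by
      rw [Fintype.sum_unique] at hc
      exact congrArg Additive.toMul hc))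
    fun x hx => by
      obtain ⟨i, -, hi⟩ := h1.eq_pow_of_mem_rootsOfUnity (ξ := x.toMul)
        ((mem_rootsOfUnity _ _).2 (congrArg Additive.toMul hx))
      exact ⟨fun _ => i, by rw [Fintype.sum_unique, natCast_zsmul, ← ofMul_pow, hi]; rfl⟩
  let ω : ℚ_[l] →+ Additive kˣ :=
    AddMonoidHom.mk' (fun t => e fun _ => t) fun a b => map_add e (fun _ => a) fun _ => b
  have hω : ∀ t, ω t = 0 ↔ ‖t‖ ≤ 1 := fun t => (he.1 _).trans ⟨fun h => h (), fun h _ => h⟩
  refine ⟨ω, hω, fun y y0 y1 => ?_, fun σ t => ?_⟩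
  · have hy : ∀ j, y j ≠ 0 := fun j => by
      induction j with
      | zero => exact y0 ▸ one_ne_zero
      | succ j ih => exact fun e => ih (by rw [← y1, e, zero_pow hl.ne_zero])
    obtain ⟨w, hw⟩ := t2_column he (fun j => Additive.ofMul (Units.mk0 _ (hy j)))
      (congrArg Additive.ofMul (Units.ext y0))
      fun j => congrArg Additive.ofMul (Units.ext (by simpa using y1 j))
    have h3 : ∀ j : ℕ, ω (((l : ℚ_[l]) ^ j)⁻¹ * w ()) = Additive.ofMul (Units.mk0 _ (hy j)) := hw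
    refine ⟨w (), (hω _).1 ?_, fun j => by rw [h3]; rfl⟩
    have h4 := h3 0
    rw [pow_zero, inv_one, one_mul] at h4
    exact h4.trans (congrArg Additive.ofMul (Units.ext y0))
  · obtain ⟨n, hn⟩ : ∃ n : ℕ, l ^ n • ω t = 0 := (he.2 _).1 ⟨_, rfl⟩
    have : NeZero (l ^ n) := ⟨pow_ne_zero _ hl.ne_zero⟩
    rw [cyclotomicCharacter.spec l (n := n) σ _
      (by rw [← Units.val_pow_eq_pow_val, ← toMul_nsmul, hn]; rfl)]
    generalize (cyclotomicCharacter k l σ).val = c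
    obtain ⟨d, hd⟩ : (l : ℤ_[l]) ^ n ∣ c - (PadicInt.toZModPow n c).val := by
      rw [← Ideal.mem_span_singleton, ← PadicInt.ker_toZModPow, RingHom.mem_ker, map_sub,
        map_natCast, ZMod.natCast_zmod_val, sub_self]
    generalize (PadicInt.toZModPow n c).val = m at hd
    have h3 : (c : ℚ_[l]) * t = m • t + d * (l ^ n • t) := by
      have h4 : (c : ℚ_[l]) - m = l ^ n * d := by
        simpa using congrArg (fun x : ℤ_[l] => (x : ℚ_[l])) hd
      rw [nsmul_eq_mul, nsmul_eq_mul, Nat.cast_pow]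
      linear_combination t * h4
    rw [← map_nsmul, hω] at hn
    rw [h3, map_add, (hω (d * _)).2 (by
      rw [norm_mul]
      exact mul_le_one₀ d.2 (norm_nonneg _) hn), add_zero, map_nsmul, toMul_nsmul,
      Units.val_pow_eq_pow_val]

variable {k A : Type} [Field k] [AddCommGroup A] {W : ℕ → A → A → k → Prop} {N : ℕ} {x y y' : A}
  {ζ ζ' : k}

theorem Pair.add' (p : Pair W) (hN : N ≠ 0) (h : W N x y ζ) (h' : W N x y' ζ') :
    W N x (y + y') (ζ * ζ') := by
  have h1 := p.skew (p.add hN (p.skew h) (p.skew h'))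
  rwa [mul_inv, inv_inv, inv_inv] at h1

theorem Pair.zero (p : Pair W) (hN : N ≠ 0) (hy : N • y = 0) : W N 0 y 1 := by
  obtain ⟨c, h⟩ := p.ex hN (nsmul_zero N) hy
  have h1 := p.add hN h h
  rw [add_zero] at h1
  rwa [mul_eq_left₀ (p.ne h) |>.1 (p.uniq hN h1 h)] at h

theorem Pair.zsmul (p : Pair W) (hN : N ≠ 0) (h : W N x y ζ) (n : ℤ) :
    W N (n • x) y (ζ ^ n) := by
  have hy := (p.tor h).2
  obtain ⟨c, h1⟩ := p.ex hN (x := -x) (by rw [smul_neg, (p.tor h).1, neg_zero]) hy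
  have h2 := p.add hN h h1
  rw [add_neg_cancel] at h2
  obtain rfl := eq_inv_of_mul_eq_one_right (p.uniq hN h2 (p.zero hN hy))
  induction n using Int.induction_on with
  | zero => simpa using p.zero hN hy
  | succ n ih => rw [add_smul, one_smul, zpow_add_one₀ (p.ne h)]; exact p.add hN ih h
  | pred n ih =>
    rw [sub_smul, one_smul, zpow_sub_one₀ (p.ne h), sub_eq_add_neg]
    exact p.add hN ih h1

theorem Pair.zsmul' (p : Pair W) (hN : N ≠ 0) (h : W N x y ζ) (n : ℤ) :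
    W N x (n • y) (ζ ^ n) := by
  have h1 := p.skew (p.zsmul hN (p.skew h) n)
  rwa [_root_.inv_zpow, inv_inv] at h1

theorem Pair.sum (p : Pair W) (hN : N ≠ 0) (hy : N • y = 0) {J : Type} (s : Finset J) {u : J → A}
    {c : J → k} (h : ∀ j ∈ s, W N (u j) y (c j)) : W N (∑ j ∈ s, u j) y (∏ j ∈ s, c j) := by
  classical
  induction s using Finset.induction_on with
  | empty => exact p.zero hN hy
  | insert j s hj ih =>
    rw [Finset.sum_insert hj, Finset.prod_insert hj]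
    exact p.add hN (h j (Finset.mem_insert_self _ _))
      (ih fun i hi => h i (Finset.mem_insert_of_mem hi))

theorem Pair.sum' (p : Pair W) (hN : N ≠ 0) (hx : N • x = 0) {J : Type} (s : Finset J) {u : J → A}
    {c : J → k} (h : ∀ j ∈ s, W N x (u j) (c j)) : W N x (∑ j ∈ s, u j) (∏ j ∈ s, c j) := by
  have h1 := p.skew (p.sum hN hx s fun j hj => p.skew (h j hj))
  rwa [Finset.prod_inv_distrib, inv_inv] at h1

end Pool.Agent.Lib.MP_d61fbb_ag.WP
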