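import Pool.Agent.Lib.MP_d61fbb_ag.WP.Defs
import Pool.Agent.Lib.MP_d61fbb_ag.SQ.C8
import Pool.Agent.Lib.MP_d61fbb_ag.SQ.C7

/-! Auxiliary definitions for the Weil pairing. -/

set_option autoImplicit false

noncomputable section

namespace Pool.Agent.Lib.MP_d61fbb_ag.WP

open Polynomial IsDedekindDomain Pool.Agent.Lib.MP_d61fbb_ag.SQ

/-- Pole order and leading coefficient at the point at infinity. -/
structure Ord {k R : Type} [Field k] [CommRing R] [Algebra k R] (ord : R → ℕ) (lc : R → k) :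
    Prop where
  zero : ∀ u, lc u = 0 ↔ u = 0
  ord_mul : ∀ u v, u ≠ 0 → v ≠ 0 → ord (u * v) = ord u + ord v
  lc_mul : ∀ u v, lc (u * v) = lc u * lc v
  ord_const : ∀ c : k, ord (algebraMap k R c) = 0
  lc_const : ∀ c : k, lc (algebraMap k R c) = c
  add : ∀ u v, ord v < ord u → ord (u + v) = ord u ∧ lc (u + v) = lc u
  sub : ∀ u v, ord u = ord v → lc u = lc v → u = v ∨ ord (u - v) < ord u
  cof : ∃ m0, ∀ m, m0 ≤ m → ∃ u, u ≠ 0 ∧ ord u = m

/-- The formal properties of the pairings. -/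
structure Pair {k A : Type} [Field k] [AddCommGroup A] (W : ℕ → A → A → k → Prop) : Prop where
  uniq : ∀ {N x y ζ ζ'}, N ≠ 0 → W N x y ζ → W N x y ζ' → ζ = ζ'
  ex : ∀ {N x y}, N ≠ 0 → N • x = 0 → N • y = 0 → ∃ ζ, W N x y ζ
  ne : ∀ {N x y ζ}, W N x y ζ → ζ ≠ 0
  tor : ∀ {N x y ζ}, W N x y ζ → N • x = 0 ∧ N • y = 0
  add : ∀ {N x x' y ζ ζ'}, N ≠ 0 → W N x y ζ → W N x' y ζ' → W N (x + x') y (ζ * ζ')
  skew : ∀ {N x y ζ}, W N x y ζ → W N y x ζ⁻¹
  comp : ∀ {N M x y ζ}, N ≠ 0 → M ≠ 0 → W N (M • x) y ζ → W (N * M) x y ζ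

variable {k : Type} [Field k] [IsAlgClosed k] {l : ℕ} {f : k[X]} [Sm l f]

/-- The class of a divisor. -/
def cw : Dv l f →+ Jac k l f :=
  Finsupp.liftAddHom fun P => zmultiplesHom _ (Additive.ofMul (cd2_U _ (cd2_pu (mx P))))

/-- The degree of a divisor. -/
def deg : Dv l f →+ ℤ := Finsupp.liftAddHom fun _ => AddMonoidHom.id ℤ

/-- The value of a regular function on a divisor. -/
def evD (D : Dv l f) (g : Crv k l f) : k := D.prod fun P n => P.ev g ^ n

/-- The ideal of an effective divisor. -/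
def idl (D : Dv l f) : Ideal (Crv k l f) := D.prod fun P n => (mx P).asIdeal ^ n.toNat

/-- The data for a value of the pairing. -/
structure WD (N : ℕ) (D E : Dv l f) (g h : Crv k l f) : Prop where
  d0 : 0 ≤ D
  e0 : 0 ≤ E
  disj : ∀ P, D P = 0 ∨ E P = 0
  g0 : g ≠ 0
  h0 : h ≠ 0
  dg : dv (io l f g) = N • D
  dh : dv (io l f h) = N • E

/-- The value of the pairing. -/
def val (lc : Crv k l f → k) (N : ℕ) (D E : Dv l f) (g h : Crv k l f) : k :=
  (-1) ^ (N * deg D * deg E) * (lc h ^ deg D / lc g ^ deg E) * (evD E g / evD D h)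

/-- The pairing in terms of divisors. -/
def WV (lc : Crv k l f → k) (N : ℕ) (x y : Jac k l f) (ζ : k) : Prop :=
  ∃ D E g h, cw D = x ∧ cw E = y ∧ WD N D E g h ∧ ζ = val lc N D E g h

end Pool.Agent.Lib.MP_d61fbb_ag.WP
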