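import Pool.Agent.Lib.MP_d61fbb_ag.SQ.Out

/-! The Weil pairing on the class group of an affine curve with one point at infinity. -/

set_option autoImplicit false

noncomputable section

namespace Pool.Agent.Lib.MP_d61fbb_ag.WP

open Matrix Pool.Agent.Lib.MP_d61fbb_ag.SQ

section

variable (k : Type) {R : Type} [Field k] [CommRing R] [Algebra k R]

/-- The degree of an ideal. -/
def dg (I : Ideal R) : ℕ := Module.finrank k (R ⧸ I)

/-- The value of `g` on the effective divisor of the ideal `I`. -/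
def nm (I : Ideal R) (g : R) : k := Algebra.norm k (Ideal.Quotient.mk I g)

variable {k}

/-- The function `u / v` takes the value `c` at infinity. -/
def Lead (u v : R) (c : k) : Prop :=
  u = c • v ∨ dg k (Ideal.span {u - c • v}) < dg k (Ideal.span {v})

/-- The ideal `I` represents the class `x`. -/
def Cls (I : Ideal R) (x : Additive (CommRing.Pic R)) : Prop :=
  Nonempty ((Additive.toMul x : CommRing.Pic R) ≃ₗ[R] I)

/-- `ζ` is the Weil pairing of level `N` of the classes `x` and `y`. -/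
def Weil (N : ℕ) (x y : Additive (CommRing.Pic R)) (ζ : k) : Prop :=
  ∃ (I J : Ideal R) (g h : R) (c : k), Cls I x ∧ Cls J y ∧ I ⊔ J = ⊤ ∧
    I ^ N = Ideal.span {g} ∧ J ^ N = Ideal.span {h} ∧ Lead (h ^ dg k I) (g ^ dg k J) c ∧
    ζ * nm k I h = (-1) ^ (N * dg k I * dg k J) * c * nm k J g

end

variable {l : ℕ} [Fact l.Prime] {k A ι : Type} [Field k] [AddCommGroup A] [Fintype ι]

/-- `B` is the matrix of the pairing `W` in the coordinates `e` and `ω`. -/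
def Gram (W : ℕ → A → A → k → Prop) (e : (ι → ℚ_[l]) →+ A) (ω : ℚ_[l] →+ Additive kˣ)
    (B : Matrix ι ι ℚ_[l]) : Prop :=
  (∀ t, ω t = 0 ↔ ‖t‖ ≤ 1) ∧ ∀ (j : ℕ) (v w : ι → ℚ_[l]), e v = 0 → e w = 0 →
    W (l ^ j) (e (((l : ℚ_[l]) ^ j)⁻¹ • v)) (e (((l : ℚ_[l]) ^ j)⁻¹ • w))
      (Additive.toMul (ω (((l : ℚ_[l]) ^ j)⁻¹ * (v ⬝ᵥ B *ᵥ w)))).val

/-- In Tate coordinates on the image of `1 - δ ^ m` the Zariski closure of the image of `Γ` is
the group of similitudes of the pairing `W` commuting with `δ`. -/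
def FullW (l : ℕ) [Fact l.Prime] {Γ : Type} (ι : Type) [Fintype ι] [DecidableEq ι]
    (W : ℕ → A → A → k → Prop) (δ : AddMonoid.End A) (m : ℕ) (act : Γ → AddMonoid.End A) : Prop :=
  ∃ (e : (ι → ℚ_[l]) →+ A) (ω : ℚ_[l] →+ Additive kˣ) (Z B : Matrix ι ι ℚ_[l])
    (ρ : Γ → Matrix ι ι ℚ_[l]),
    TateOn e (1 - δ ^ m) ∧ Rep e δ Z ∧ (∀ γ, Rep e (act γ) (ρ γ)) ∧ Gram W e ω B ∧ B.det ≠ 0 ∧
    ∀ g : Matrix ι ι (PadicAlgCl l), g.det ≠ 0 → (Zar (Set.range ρ) g ↔ GU Z B g)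

end Pool.Agent.Lib.MP_d61fbb_ag.WP
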