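import Pool.Agent.Lib.MP_d61fbb_ag.WP.D

/-! Classes and ideals of divisors. -/

set_option autoImplicit false

noncomputable section

namespace Pool.Agent.Lib.MP_d61fbb_ag.WP

open Polynomial IsDedekindDomain Pool.Agent.Lib.MP_d61fbb_ag.SQ

variable {k : Type} [Field k] [IsAlgClosed k] {l : ℕ} {f : k[X]} [Sm l f]

open scoped nonZeroDivisors

/-- The fractional ideal of a divisor. -/
def i1_U (D : Dv l f) : (FractionalIdeal (Crv k l f)⁰ (Fn l f))ˣ :=
  D.prod fun P n => cd2_pu (mx P) ^ n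

theorem i1_U_eq (D : Dv l f) : i1_U D = (D.equivMapDomain mx).prod fun w n => cd2_pu w ^ n := by
  rw [Finsupp.prod_equivMapDomain, i1_U]

theorem i1_cw (D : Dv l f) : cw D = Additive.ofMul (cd2_U _ (i1_U D)) := by
  rw [i1_U_eq, ← cd2_sum, Finsupp.sum_equivMapDomain]
  rfl

theorem i1_count (D : Dv l f) (P : Pt l f) :
    FractionalIdeal.count (Fn l f) (mx P) (i1_U D) = D P := by
  rw [i1_U_eq, cd2_count]
  simp

theorem i1_ext {I J : FractionalIdeal (Crv k l f)⁰ (Fn l f)} (hI : I ≠ 0) (hJ : J ≠ 0)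
    (h : ∀ P, FractionalIdeal.count (Fn l f) (mx P) I = FractionalIdeal.count (Fn l f) (mx P) J) :
    I = J := cd2_ext hI hJ fun v => by simpa using h (mx.symm v)

theorem i1_single (P : Pt l f) (n : ℤ) :
    cw (Finsupp.single P n) = n • Additive.ofMul (cd2_U _ (cd2_pu (mx P))) := by
  rw [cw, Finsupp.liftAddHom_apply_single]
  rfl

theorem i1_idl {D : Dv l f} (hD : 0 ≤ D) :
    (idl D : FractionalIdeal (Crv k l f)⁰ (Fn l f)) = i1_U D := by
  rw [idl, i1_U, Finsupp.prod, Finsupp.prod, Units.coe_prod, ← FractionalIdeal.coeIdealHom_apply,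
    map_prod]
  refine Finset.prod_congr rfl fun P _ => ?_
  rw [← Int.toNat_of_nonneg (hD P), zpow_natCast, Int.toNat_natCast, map_pow,
    Units.val_pow_eq_pow_val]
  rfl

theorem cw_surj : Function.Surjective (cw : Dv l f → Jac k l f) := by
  intro x
  obtain ⟨I, e⟩ := cd2_surj (Additive.toMul x)
  let D : Dv l f := Finsupp.ofSupportFinite (fun P => FractionalIdeal.count (Fn l f) (mx P) I)
    ((Filter.eventually_cofinite.1 (FractionalIdeal.finite_factors
      (I : FractionalIdeal (Crv k l f)⁰ (Fn l f)))).preimage mx.injective.injOn)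
  have h : i1_U D = I := Units.ext (i1_ext (Units.ne_zero _) I.ne_zero fun P => i1_count D P)
  exact ⟨D, by rw [i1_cw, h, e, ofMul_toMul]⟩

theorem cw_eq_zero {D : Dv l f} : cw D = 0 ↔ ∃ b, b ≠ 0 ∧ D = dv b := by
  rw [i1_cw, ofMul_eq_zero, cd2_ker]
  refine exists_congr fun b => and_congr_right fun hb => ⟨fun e => Finsupp.ext fun P => ?_, ?_⟩
  · rw [← i1_count D P, e, dv_apply, cnt]
  · rintro rfl
    exact i1_ext (Units.ne_zero _) (FractionalIdeal.spanSingleton_ne_zero_iff.2 hb)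
      fun P => i1_count _ P

theorem cw_au (a : Au l f) (D : Dv l f) : cw (a.D D) = a.J (cw D) := by
  induction D using Finsupp.induction_linear with
  | zero => simp
  | add D E h1 h2 => simp only [map_add, h1, h2]
  | single P n =>
    rw [a.D_single, i1_single, i1_single, map_zsmul]
    exact congrArg (fun x => n • Additive.ofMul x) (cd2_equi a.B _ _ (c3_mem a P)).symm

theorem idl_ne (D : Dv l f) : idl D ≠ ⊥ := by
  exact Finset.prod_ne_zero_iff.2 fun P _ => pow_ne_zero _ (mx P).ne_bot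

theorem idl_add {D E : Dv l f} (hD : 0 ≤ D) (hE : 0 ≤ E) : idl (D + E) = idl D * idl E := by
  refine FractionalIdeal.coeIdeal_injective (K := Fn l f) ?_
  simp only [FractionalIdeal.coeIdeal_mul]
  rw [i1_idl (add_nonneg hD hE), i1_idl hD, i1_idl hE, ← Units.val_mul]
  exact congrArg _ (Finsupp.prod_add_index' (fun _ => zpow_zero _) fun _ _ _ => zpow_add _ _ _)

theorem idl_nsmul {D : Dv l f} (hD : 0 ≤ D) (N : ℕ) : idl (N • D) = idl D ^ N := by
  induction N with
  | zero => rw [zero_smul, pow_zero]; rfl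
  | succ n ih => rw [succ_nsmul, idl_add (nsmul_nonneg hD n) hD, ih, pow_succ]

theorem idl_dv {g : Crv k l f} (hg : g ≠ 0) : idl (dv (io l f g)) = Ideal.span {g} := by
  refine FractionalIdeal.coeIdeal_injective (K := Fn l f) ?_
  simp only [FractionalIdeal.coeIdeal_span_singleton]
  rw [i1_idl (dv_nonneg g)]
  exact i1_ext (Units.ne_zero _) (FractionalIdeal.spanSingleton_ne_zero_iff.2
    ((map_ne_zero_iff _ io_inj).2 hg)) fun P => i1_count _ P

theorem idl_sup {D E : Dv l f} (h : ∀ P, D P = 0 ∨ E P = 0) : idl D ⊔ idl E = ⊤ := by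
  refine Ideal.isCoprime_iff_sup_eq.1 (IsCoprime.prod_left fun P hP =>
    IsCoprime.prod_right fun Q hQ => IsCoprime.pow (Ideal.isCoprime_iff_sup_eq.2
      ((mx P).isMaximal.coprime_of_ne (mx Q).isMaximal fun e => ?_)))
  obtain rfl := mx.injective (HeightOneSpectrum.ext e)
  exact (h P).elim (Finsupp.mem_support_iff.1 hP) (Finsupp.mem_support_iff.1 hQ)

theorem cls_idl {D : Dv l f} (hD : 0 ≤ D) : Cls (idl D) (cw D) := by
  rw [i1_cw]
  refine ⟨(Submodule.unitsToPicEquiv _).trans ((LinearEquiv.ofEq _ _ ?_).trans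
    (Submodule.equivMapOfInjective (Algebra.linearMap _ (Fn l f)) io_inj (idl D)).symm)⟩
  exact congrArg FractionalIdeal.coeToSubmodule (i1_idl hD).symm

/-- Every class has an effective representative avoiding a finite set. -/
theorem move_eff {S : Set (Pt l f)} (hS : S.Finite) (x : Jac k l f) :
    ∃ D : Dv l f, 0 ≤ D ∧ cw D = x ∧ ∀ P ∈ S, D P = 0 := by
  classical
  let T : AddSubmonoid (Jac k l f) :=
    { carrier := {x | ∃ D : Dv l f, 0 ≤ D ∧ cw D = x ∧ ∀ P ∈ S, D P = 0}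
      zero_mem' := ⟨0, le_rfl, rfl, fun _ _ => rfl⟩
      add_mem' := by
        rintro _ _ ⟨D, d1, rfl, d2⟩ ⟨E, e1, rfl, e2⟩
        exact ⟨D + E, add_nonneg d1 e1, map_add _ _ _, fun P hP => by simp [d2 P hP, e2 P hP]⟩ }
  have h1 : ∀ P, -cw (Finsupp.single P 1) ∈ T := fun P => by
    obtain ⟨b, b0, b1, b2⟩ := move_pt hS P
    refine ⟨dv (io l f b) - Finsupp.single P 1, fun Q => ?_, ?_, fun Q hQ => ?_⟩
    · by_cases e : Q = P
      · simp [e, b1]
      · simpa [Ne.symm e] using dv_nonneg b Q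
    · rw [map_sub, cw_eq_zero.2 ⟨_, (map_ne_zero_iff _ io_inj).2 b0, rfl⟩, zero_sub]
    · by_cases e : Q = P
      · simp [e, b1]
      · simp [b2 Q hQ e, Ne.symm e]
  have h0 : ∀ (P : Pt l f) (n : ℤ), cw (Finsupp.single P n) = n • cw (Finsupp.single P 1) :=
    fun P n => by rw [← map_zsmul, Finsupp.smul_single_one]
  have h2 : ∀ E : Dv l f, 0 ≤ E → -cw E ∈ T := fun E hE => by
    rw [← E.sum_single, Finsupp.sum, map_sum, ← Finset.sum_neg_distrib]
    refine T.sum_mem fun P _ => ?_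
    rw [h0, ← smul_neg, ← Int.toNat_of_nonneg (hE P), natCast_zsmul]
    exact T.nsmul_mem (h1 P) _
  obtain ⟨D, rfl⟩ := cw_surj x
  change cw D ∈ T
  induction D using Finsupp.induction_linear with
  | zero => exact T.zero_mem
  | add D E d e => exact map_add cw D E ▸ T.add_mem d e
  | single P n =>
    rw [h0]
    obtain ⟨m, rfl | rfl⟩ := Int.eq_nat_or_neg n
    · obtain ⟨E, e1, e2, -⟩ := h1 P
      rw [natCast_zsmul, ← neg_neg (cw _), ← e2]
      exact T.nsmul_mem (h2 E e1) m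
    · rw [neg_smul, ← smul_neg, natCast_zsmul]
      exact T.nsmul_mem (h1 P) m

theorem exists_fn {D : Dv l f} (hD : 0 ≤ D) (h : cw D = 0) :
    ∃ g : Crv k l f, g ≠ 0 ∧ dv (io l f g) = D := by
  obtain ⟨b, hb, rfl⟩ := cw_eq_zero.1 h
  obtain ⟨g, rfl⟩ := dv_int hD
  exact ⟨g, fun e => hb (by rw [e, map_zero]), rfl⟩

theorem eq_const {g h : Crv k l f} (hg : g ≠ 0) (hh : h ≠ 0) (e : dv (io l f g) = dv (io l f h)) :
    ∃ c : k, c ≠ 0 ∧ g = algebraMap k _ c * h := by
  have hg' := (map_ne_zero_iff _ io_inj).2 hg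
  have hh' := (map_ne_zero_iff _ io_inj).2 hh
  obtain ⟨c, hc⟩ := unit_const (div_ne_zero hg' hh') (by rw [dv_div hg' hh', e, sub_self])
  have h1 : g = algebraMap k _ c * h := io_inj (by
    rw [map_mul, ← div_mul_cancel₀ (io l f g) hh', hc]; rfl)
  exact ⟨c, fun e => hg (by rw [h1, e, map_zero, zero_mul]), h1⟩

end Pool.Agent.Lib.MP_d61fbb_ag.WP
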