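import Pool.Agent.Lib.MP_d61fbb_ag.WP.I1

/-! Degrees and norms in terms of divisors. -/

set_option autoImplicit false

noncomputable section

namespace Pool.Agent.Lib.MP_d61fbb_ag.WP

open Polynomial IsDedekindDomain Pool.Agent.Lib.MP_d61fbb_ag.SQ

section gen

variable {k R : Type} [Field k] [CommRing R] [IsDedekindDomain R] [Algebra k R]

theorem i2_gen (ev : R →+* k) (hev : ∀ c : k, ev (algebraMap k R c) = c) {I : Ideal R}
    (hI : I ≠ ⊥) : ∃ t ∈ I, t ∉ RingHom.ker ev * I ∧
      ∀ u ∈ I, ∃ c : k, u - c • t ∈ RingHom.ker ev * I := by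
  have hm : (RingHom.ker ev).IsMaximal :=
    RingHom.ker_isMaximal_of_surjective ev fun c => ⟨_, hev c⟩
  have h1 : ¬ I ≤ RingHom.ker ev * I := fun h => hm.ne_top <| by
    have h2 : RingHom.ker ev * I = 1 * I := by
      rw [one_mul]; exact le_antisymm Ideal.mul_le_right h
    exact (mul_right_cancel₀ hI h2).trans Ideal.one_eq_top
  obtain ⟨t, ht, ht'⟩ := SetLike.not_le_iff_exists.mp h1
  refine ⟨t, ht, ht', fun u hu => ?_⟩
  obtain ⟨K, hK⟩ : I ∣ RingHom.ker ev * I ⊔ Ideal.span {t} := Ideal.dvd_iff_le.mpr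
    (sup_le Ideal.mul_le_right ((Ideal.span_singleton_le_iff_mem _).mpr ht))
  have h2 : K ∣ RingHom.ker ev := by
    rw [← mul_dvd_mul_iff_left hI, ← hK, mul_comm I]
    exact Ideal.dvd_iff_le.mpr le_sup_left
  have h3 : K = ⊤ := by
    by_contra h
    have h4 := hm.eq_of_le h (Ideal.dvd_iff_le.mp h2)
    refine ht' ?_
    rw [mul_comm, h4, ← hK]
    exact Ideal.mem_sup_right (Ideal.mem_span_singleton_self t)
  rw [h3, Ideal.mul_top] at hK
  obtain ⟨a, ha, b, hb, rfl⟩ := Submodule.mem_sup.mp (hK.ge hu)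
  obtain ⟨r, rfl⟩ := Ideal.mem_span_singleton'.mp hb
  refine ⟨ev r, ?_⟩
  rw [add_sub_assoc, Algebra.smul_def, ← sub_mul]
  refine add_mem ha (Ideal.mul_mem_mul ?_ ht)
  rw [RingHom.mem_ker, map_sub, hev, sub_self]

theorem i2_step (ev : R →+* k) (hev : ∀ c : k, ev (algebraMap k R c) = c) {I : Ideal R}
    (hI : I ≠ ⊥) [Module.Finite k (R ⧸ I)] :
    Module.Finite k (R ⧸ RingHom.ker ev * I) ∧ dg k (RingHom.ker ev * I) = dg k I + 1 ∧
      ∀ g, nm k (RingHom.ker ev * I) g = ev g * nm k I g := by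
  obtain ⟨t, ht, ht', hs⟩ := i2_gen ev hev hI
  have hm : ∀ g : R, ∀ u ∈ I, g * u - ev g • u ∈ RingHom.ker ev * I := fun g u hu => by
    rw [Algebra.smul_def, ← sub_mul]
    refine Ideal.mul_mem_mul ?_ hu
    rw [RingHom.mem_ker, map_sub, hev, sub_self]
  have hJ : RingHom.ker ev * I ≤ I := Ideal.mul_le_right
  generalize RingHom.ker ev * I = J at ht' hs hm hJ
  let π : (R ⧸ J) →ₗ[k] R ⧸ I := (Ideal.Quotient.factorₐ k hJ).toLinearMap
  have hπ : ∀ r, π (Ideal.Quotient.mk J r) = Ideal.Quotient.mk I r := fun r => rfl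
  have hπs : Function.Surjective π := fun x => by
    obtain ⟨r, rfl⟩ := Ideal.Quotient.mk_surjective x
    exact ⟨_, hπ r⟩
  have hk : ∀ r, Ideal.Quotient.mk J r ∈ LinearMap.ker π ↔ r ∈ I := fun r => by
    rw [LinearMap.mem_ker, hπ, Ideal.Quotient.eq_zero_iff_mem]
  have hsm : ∀ (c : k) (r : R), Ideal.Quotient.mk J (c • r) = c • Ideal.Quotient.mk J r :=
    fun c r => map_smul (Ideal.Quotient.mkₐ k J) c r
  have hW : LinearMap.ker π = Submodule.span k {Ideal.Quotient.mk J t} := by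
    refine le_antisymm (fun x hx => ?_) ((Submodule.span_singleton_le_iff_mem _ _).mpr
      ((hk t).mpr ht))
    obtain ⟨r, rfl⟩ := Ideal.Quotient.mk_surjective x
    obtain ⟨c, hc⟩ := hs r ((hk r).mp hx)
    exact Submodule.mem_span_singleton.mpr ⟨c, by rw [← hsm, Ideal.Quotient.eq.mpr hc]⟩
  have h1 : Module.finrank k (LinearMap.ker π) = 1 := by
    rw [hW]
    exact finrank_span_singleton (mt Ideal.Quotient.eq_zero_iff_mem.mp ht')
  have f1 : Module.Finite k (LinearMap.ker π) := Module.finite_of_finrank_pos (by omega)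
  let e := π.quotKerEquivOfSurjective hπs
  have f2 : Module.Finite k ((R ⧸ J) ⧸ LinearMap.ker π) := Module.Finite.equiv e.symm
  have f3 : Module.Finite k (R ⧸ J) := .of_submodule_quotient (LinearMap.ker π)
  refine ⟨f3, ?_, fun g => ?_⟩
  · rw [dg, dg, ← (LinearMap.ker π).finrank_quotient_add_finrank, h1, e.finrank_eq]
  have he : LinearMap.ker π ≤ (LinearMap.ker π).comap
      (Algebra.lmul k (R ⧸ J) (Ideal.Quotient.mk J g)) := fun x hx => by
    obtain ⟨r, rfl⟩ := Ideal.Quotient.mk_surjective x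
    exact (hk (g * r)).mpr (I.mul_mem_left g ((hk r).mp hx))
  rw [nm, nm, Algebra.norm_apply, Algebra.norm_apply, LinearMap.det_eq_det_mul_det _ _ he]
  congr 1
  · have h2 : (Algebra.lmul k (R ⧸ J) (Ideal.Quotient.mk J g)).restrict he =
        ev g • (1 : Module.End k (LinearMap.ker π)) := by
      refine LinearMap.ext fun ⟨x, hx⟩ => Subtype.ext ?_
      obtain ⟨r, rfl⟩ := Ideal.Quotient.mk_surjective x
      exact (Ideal.Quotient.eq.mpr (hm g r ((hk r).mp hx))).trans (hsm _ r)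
    rw [h2, LinearMap.det_smul, h1, pow_one, map_one, mul_one]
  · rw [← LinearMap.det_conj _ e]
    congr 1
    refine LinearMap.ext fun x => ?_
    obtain ⟨r, rfl⟩ := Ideal.Quotient.mk_surjective x
    have h3 : e.symm (Ideal.Quotient.mk I r) = Submodule.Quotient.mk (Ideal.Quotient.mk J r) :=
      e.symm_apply_eq.mpr rfl
    rw [LinearMap.comp_apply, LinearMap.comp_apply, LinearEquiv.coe_coe, LinearEquiv.coe_coe, h3]
    rfl

end gen

variable {k : Type} [Field k] [IsAlgClosed k] {l : ℕ} {f : k[X]} [Sm l f]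

omit [IsAlgClosed k] [Sm l f] in
theorem i2_ev (P : Pt l f) (c : k) : P.ev (algebraMap k (Crv k l f) c) = c :=
  (P.ev_po (C c)).trans eval_C

omit [IsAlgClosed k] [Sm l f] in
theorem i2_ind {p : Dv l f → Prop} (h0 : p 0)
    (h1 : ∀ P D, 0 ≤ D → p D → p (Finsupp.single P 1 + D)) {D : Dv l f} (hD : 0 ≤ D) : p D := by
  classical
  induction D using Finsupp.induction with
  | zero => exact h0
  | single_add P n E hP hn ih =>
    have hE : E P = 0 := Finsupp.notMem_support_iff.mp hP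
    have h2 : 0 ≤ n := by simpa [hE] using hD P
    have h3 : 0 ≤ E := fun Q => by
      by_cases h : P = Q
      · rw [← h, hE]; rfl
      · simpa [Finsupp.single_apply, h] using hD Q
    lift n to ℕ using h2
    clear hn hD
    induction n with
    | zero => simpa using ih h3
    | succ n ih' =>
      rw [Nat.cast_succ, add_comm (n : ℤ), Finsupp.single_add, add_assoc]
      exact h1 _ _ (add_nonneg (Finsupp.single_nonneg.mpr (Int.natCast_nonneg n)) h3) ih'

omit [IsAlgClosed k] [Sm l f] in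
theorem i2_deg (P : Pt l f) (n : ℤ) : deg (Finsupp.single P n) = n :=
  Finsupp.liftAddHom_apply_single _ _ _

omit [IsAlgClosed k] [Sm l f] in
theorem i2_evD (P : Pt l f) (n : ℤ) (g : Crv k l f) :
    evD (Finsupp.single P n) g = P.ev g ^ n :=
  Finsupp.prod_single_index (zpow_zero _)

omit [IsAlgClosed k] [Sm l f] in
theorem i2_add {D E : Dv l f} {g : Crv k l f}
    (h : ∀ P, P.ev g ≠ 0 ∨ D P + E P ≠ 0 ∨ D P = 0 ∧ E P = 0) :
    evD (D + E) g = evD D g * evD E g := by
  classical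
  rw [evD, evD, evD,
    Finsupp.prod_of_support_subset _ Finsupp.support_add _ fun _ _ => zpow_zero _,
    Finsupp.prod_of_support_subset D Finset.subset_union_left _ fun _ _ => zpow_zero _,
    Finsupp.prod_of_support_subset E Finset.subset_union_right _ fun _ _ => zpow_zero _,
    ← Finset.prod_mul_distrib]
  exact Finset.prod_congr rfl fun P _ => zpow_add' (h P)

omit [IsAlgClosed k] [Sm l f] in
theorem i2_add' {D E : Dv l f} (hD : 0 ≤ D) (hE : 0 ≤ E) (g : Crv k l f) :
    evD (D + E) g = evD D g * evD E g :=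
  i2_add fun P => .inr (by
    have h1 : 0 ≤ D P := hD P
    have h2 : 0 ≤ E P := hE P
    omega)

theorem i2_idl (P : Pt l f) : idl (Finsupp.single P 1) = RingHom.ker P.ev := by
  rw [idl, Finsupp.prod_single_index (by simp)]
  exact pow_one _

theorem i2_main {D : Dv l f} (hD : 0 ≤ D) : Module.Finite k (Crv k l f ⧸ idl D) ∧
    (dg k (idl D) : ℤ) = deg D ∧ ∀ g, nm k (idl D) g = evD D g := by
  refine i2_ind (p := fun D => Module.Finite k (Crv k l f ⧸ idl D) ∧
    (dg k (idl D) : ℤ) = deg D ∧ ∀ g, nm k (idl D) g = evD D g) ?_ ?_ hD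
  · have h : idl (0 : Dv l f) = ⊤ := Finsupp.prod_zero_index.trans Ideal.one_eq_top
    have : Subsingleton (Crv k l f ⧸ idl (0 : Dv l f)) := Ideal.Quotient.subsingleton_iff.mpr h
    refine ⟨inferInstance, ?_, fun g => ?_⟩
    · rw [dg, Module.finrank_zero_of_subsingleton, map_zero, Nat.cast_zero]
    · rw [nm, Algebra.norm_apply, LinearMap.det_eq_one_of_subsingleton, evD,
        Finsupp.prod_zero_index]
  · rintro P D hD ⟨h1, h2, h3⟩
    have h0 : (0 : Dv l f) ≤ Finsupp.single P 1 := Finsupp.single_nonneg.mpr zero_le_one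
    obtain ⟨k1, k2, k3⟩ := i2_step P.ev (i2_ev P) (idl_ne D)
    rw [idl_add h0 hD, i2_idl]
    refine ⟨k1, ?_, fun g => ?_⟩
    · rw [k2, map_add, i2_deg, Nat.cast_succ, h2, add_comm]
    · rw [k3, h3, i2_add' h0 hD, i2_evD, zpow_one]

theorem dg_idl {D : Dv l f} (hD : 0 ≤ D) : (dg k (idl D) : ℤ) = deg D := by
  exact (i2_main hD).2.1

theorem nm_idl {D : Dv l f} (hD : 0 ≤ D) (g : Crv k l f) : nm k (idl D) g = evD D g := by
  exact (i2_main hD).2.2 g

theorem evD_mul (D : Dv l f) (g h : Crv k l f) : evD D (g * h) = evD D g * evD D h := by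
  simp only [evD, map_mul, mul_zpow, Finsupp.prod_mul]

theorem evD_pow (D : Dv l f) (g : Crv k l f) (n : ℕ) : evD D (g ^ n) = evD D g ^ n := by
  induction n with
  | zero => simp [evD, Finsupp.prod]
  | succ n ih => rw [pow_succ, pow_succ, evD_mul, ih]

theorem evD_const (D : Dv l f) {c : k} (hc : c ≠ 0) :
    evD D (algebraMap k _ c) = c ^ deg D := by
  induction D using Finsupp.induction_linear with
  | zero => simp [evD]
  | add D E h1 h2 =>
    rw [i2_add fun P => .inl (by rwa [i2_ev]), h1, h2, map_add, zpow_add₀ hc]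
  | single P n => rw [i2_evD, i2_ev, i2_deg]

theorem evD_add {D E : Dv l f} (hD : 0 ≤ D) (hE : 0 ≤ E) (g : Crv k l f) :
    evD (D + E) g = evD D g * evD E g := by
  exact i2_add' hD hE g

theorem evD_nsmul {D : Dv l f} (hD : 0 ≤ D) (n : ℕ) (g : Crv k l f) :
    evD (n • D) g = evD D g ^ n := by
  induction n with
  | zero => simp [evD]
  | succ n ih => rw [succ_nsmul, evD_add (nsmul_nonneg hD n) hD, ih, pow_succ]

theorem evD_ne {D : Dv l f} {g : Crv k l f} (hg : g ≠ 0)
    (h : ∀ P, D P = 0 ∨ dv (io l f g) P = 0) : evD D g ≠ 0 := by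
  refine Finset.prod_ne_zero_iff.mpr fun P hP => zpow_ne_zero _ ?_
  exact (dv_eq_zero_iff hg P).mp ((h P).resolve_left (Finsupp.mem_support_iff.mp hP))

theorem evD_au (a : Au l f) (D : Dv l f) (g : Crv k l f) :
    evD (a.D D) (a.B g) = a.σ (evD D g) := by
  have h : a.D D = Finsupp.mapDomain a.P D := rfl
  rw [h, evD, evD, Finsupp.prod_mapDomain_index_inj a.P.injective, map_finsuppProd]
  simp only [a.ev_B, map_zpow₀]

theorem deg_au (a : Au l f) (D : Dv l f) : deg (a.D D) = deg D := by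
  induction D using Finsupp.induction_linear with
  | zero => simp
  | add D E h1 h2 => rw [map_add, map_add, map_add, h1, h2]
  | single P n => rw [a.D_single, i2_deg, i2_deg]

theorem deg_nonneg {D : Dv l f} (hD : 0 ≤ D) : 0 ≤ deg D := by
  rw [← dg_idl hD]
  exact Int.natCast_nonneg _

end Pool.Agent.Lib.MP_d61fbb_ag.WP
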