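import Pool.Agent.Lib.MP_d61fbb_ag.WP.D

/-! Bases of principal quotients. -/

set_option autoImplicit false

noncomputable section

namespace Pool.Agent.Lib.MP_d61fbb_ag.WP

open Polynomial Pool.Agent.Lib.MP_d61fbb_ag.SQ

variable {k R : Type} [Field k] [CommRing R] [Algebra k R] {ord : R → ℕ} {lc : R → k}

/-- `s` is a pole order and `s - a` is not. -/
def Ap (ord : R → ℕ) (a s : ℕ) : Prop :=
  (∃ r, r ≠ 0 ∧ ord r = s) ∧ ¬ ∃ r, r ≠ 0 ∧ ord r + a = s

theorem Ord.o2_ne (h : Ord ord lc) {u v : R} (hu : u ≠ 0) (hv : v ≠ 0) : u * v ≠ 0 := by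
  rw [Ne, ← h.zero] at *
  rw [h.lc_mul]
  exact mul_ne_zero hu hv

theorem Ord.o2_lc (h : Ord ord lc) (c : k) (u : R) : lc (c • u) = c * lc u := by
  rw [Algebra.smul_def, h.lc_mul, h.lc_const]

theorem Ord.o2_ord (h : Ord ord lc) {c : k} (hc : c ≠ 0) (u : R) : ord (c • u) = ord u := by
  by_cases hu : u = 0
  · rw [hu, smul_zero]
  rw [Algebra.smul_def, h.ord_mul _ _ (by rwa [Ne, ← h.zero, h.lc_const]) hu, h.ord_const, zero_add]

theorem Ord.o2_red (h : Ord ord lc) {r v : R} (hr : r ≠ 0) (hv : v ≠ 0) (e : ord v = ord r) :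
    r - (lc r / lc v) • v = 0 ∨ ord (r - (lc r / lc v) • v) < ord r := by
  rw [Ne, ← h.zero] at hr hv
  rw [sub_eq_zero]
  exact h.sub _ _ (by rw [h.o2_ord (div_ne_zero hr hv), e])
    (by rw [h.o2_lc, div_mul_cancel₀ _ hv])

theorem Ord.o2_pow (h : Ord ord lc) {u r : R} (hu : u ≠ 0) (hr : r ≠ 0) (n : ℕ) :
    ∃ t, t ≠ 0 ∧ ord t = ord r + ord u * n := by
  induction n with
  | zero => exact ⟨r, hr, rfl⟩
  | succ n ih =>
    obtain ⟨t, h1, h2⟩ := ih
    exact ⟨t * u, h.o2_ne h1 hu, by rw [h.ord_mul _ _ h1 hu, h2]; ring⟩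

theorem Ord.o2_sum (h : Ord ord lc) {X : Type} (b : X → R) (h0 : ∀ x, b x ≠ 0)
    (h1 : Function.Injective fun x => ord (b x)) (c : X → k) (s : Finset X) :
    (∀ x ∈ s, c x ≠ 0) → s = ∅ ∨
      ∃ x ∈ s, ∑ y ∈ s, c y • b y ≠ 0 ∧ ord (∑ y ∈ s, c y • b y) = ord (b x) := by
  classical
  induction s using Finset.induction_on_max_value (fun x => ord (b x)) with
  | empty => exact fun _ => .inl rfl
  | insert a s ha hm ih =>
    intro hc
    have hca := hc a (Finset.mem_insert_self a s)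
    have h2 : lc (c a • b a) ≠ 0 := by
      rw [h.o2_lc]
      exact mul_ne_zero hca (mt (h.zero _).mp (h0 a))
    refine .inr ⟨a, Finset.mem_insert_self a s, ?_⟩
    rw [Finset.sum_insert ha]
    rcases ih fun x hx => hc x (Finset.mem_insert_of_mem hx) with rfl | ⟨x, hx, -, h3⟩
    · rw [Finset.sum_empty, add_zero]
      exact ⟨mt (h.zero _).mpr h2, h.o2_ord hca _⟩
    · have h4 := h.add (c a • b a) (∑ y ∈ s, c y • b y) (by
        rw [h3, h.o2_ord hca]
        exact (hm x hx).lt_of_ne fun e => ha (h1 e ▸ hx))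
      exact ⟨mt (h.zero _).mpr (h4.2 ▸ h2), h4.1.trans (h.o2_ord hca _)⟩

theorem Ord.o2_exp (h : Ord ord lc) {u : R} (hu : u ≠ 0) {X : Type} [Fintype X] (b : X → R)
    (h0 : ∀ x, b x ≠ 0) (h1 : Function.Injective fun x => ord (b x))
    (h2 : ∀ s, Ap ord (ord u) s ↔ ∃ x, ord (b x) = s) (r : R) :
    ∃ c : X → k, Ideal.Quotient.mk (Ideal.span {u}) r =
      ∑ x, c x • Ideal.Quotient.mk (Ideal.span {u}) (b x) ∧
      ∀ x, (ord r < ord (b x) → c x = 0) ∧ (ord r = ord (b x) → c x * lc (b x) = lc r) := by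
  classical
  induction hn : ord r using Nat.strong_induction_on generalizing r with
  | _ n ih =>
  subst hn
  by_cases hr : r = 0
  · exact ⟨0, by simp [hr], fun x => ⟨fun _ => rfl, fun _ => by simp [(h.zero r).mpr hr]⟩⟩
  have key : ∀ v, v ≠ 0 → ord v = ord r → ∃ c : X → k, Ideal.Quotient.mk (Ideal.span {u}) r =
      ∑ x, c x • Ideal.Quotient.mk (Ideal.span {u}) (b x) +
        (lc r / lc v) • Ideal.Quotient.mk (Ideal.span {u}) v ∧
      ∀ x, ord r ≤ ord (b x) → c x = 0 := fun v hv e => by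
    have h3 : Ideal.Quotient.mk (Ideal.span {u}) r =
        Ideal.Quotient.mk (Ideal.span {u}) (r - (lc r / lc v) • v) +
          (lc r / lc v) • Ideal.Quotient.mk (Ideal.span {u}) v := by
      rw [map_sub]
      exact (sub_add_cancel _ _).symm
    rcases h.o2_red hr hv e with h4 | h4
    · exact ⟨0, by rw [h3, h4]; simp, fun _ _ => rfl⟩
    · obtain ⟨c, h5, h6⟩ := ih _ h4 _ rfl
      exact ⟨c, by rw [h3, h5], fun x hx => (h6 x).1 (h4.trans_le hx)⟩
  by_cases hA : Ap ord (ord u) (ord r)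
  · obtain ⟨y, hy⟩ := (h2 _).mp hA
    obtain ⟨c, h3, h4⟩ := key _ (h0 y) hy
    refine ⟨c + Pi.single y (lc r / lc (b y)), ?_, fun x => ⟨fun hx => ?_, fun hx => ?_⟩⟩
    · simp only [h3, Pi.add_apply, add_smul, Finset.sum_add_distrib]
      congr 1
      rw [Finset.sum_eq_single y (fun x _ hx => by simp [hx]) (by simp), Pi.single_eq_same]
    · rw [Pi.add_apply, h4 x hx.le, Pi.single_eq_of_ne, add_zero]
      rintro rfl
      exact hx.ne' hy
    · obtain rfl : y = x := h1 (hy.trans hx)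
      rw [Pi.add_apply, h4 y hx.le, Pi.single_eq_same, zero_add,
        div_mul_cancel₀ _ (mt (h.zero _).mp (h0 y))]
  · obtain ⟨t, ht, e⟩ := not_not.mp (not_and.mp hA ⟨r, hr, rfl⟩)
    obtain ⟨c, h3, h4⟩ := key _ (h.o2_ne ht hu) ((h.ord_mul _ _ ht hu).trans e)
    refine ⟨c, ?_, fun x => ⟨fun hx => h4 x hx.le, fun hx => absurd ((h2 _).mpr ⟨x, hx.symm⟩) hA⟩⟩
    rw [h3, Ideal.Quotient.eq_zero_iff_mem.mpr (Ideal.mem_span_singleton'.mpr ⟨t, rfl⟩), smul_zero,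
      add_zero]

/-- One such number in each residue class. -/
theorem Ord.ap (h : Ord ord lc) {u : R} (hu : u ≠ 0) (ha : ord u ≠ 0) (i : ZMod (ord u)) :
    ∃! s, Ap ord (ord u) s ∧ (s : ZMod (ord u)) = i := by
  classical
  have h1 : ∃ s, (∃ r, r ≠ 0 ∧ ord r = s) ∧ (s : ZMod (ord u)) = i := by
    obtain ⟨m, hm⟩ := h.cof
    have : NeZero (ord u) := ⟨ha⟩
    exact ⟨i.val + ord u * m, hm _ (le_add_left (Nat.le_mul_of_pos_left _ (Nat.pos_of_ne_zero ha))),
      by simp⟩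
  have h2 : ∀ s t, Ap ord (ord u) s → Ap ord (ord u) t → (s : ZMod (ord u)) = t → ¬ s < t := by
    rintro s t ⟨⟨r, hr, rfl⟩, -⟩ ⟨-, ht⟩ e hlt
    obtain ⟨n, hn⟩ := (Nat.modEq_iff_dvd' hlt.le).mp ((ZMod.natCast_eq_natCast_iff _ _ _).mp e)
    rcases n with _ | n
    · omega
    obtain ⟨w, h3, h4⟩ := h.o2_pow hu hr n
    exact ht ⟨w, h3, by rw [h4]; rw [mul_add_one] at hn; omega⟩
  have h3 : Ap ord (ord u) (Nat.find h1) := ⟨(Nat.find_spec h1).1, fun ⟨r, hr, e⟩ =>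
    Nat.find_min h1 (m := ord r) (by omega) ⟨⟨r, hr, rfl⟩, by
      rw [← (Nat.find_spec h1).2, ← e]; simp⟩⟩
  refine ⟨Nat.find h1, ⟨h3, (Nat.find_spec h1).2⟩, fun t ht => ?_⟩
  have e := ht.2.trans (Nat.find_spec h1).2.symm
  exact le_antisymm (not_lt.mp (h2 _ _ h3 ht.1 e.symm)) (not_lt.mp (h2 _ _ ht.1 h3 e))

/-- A family with the right pole orders is a basis of the quotient, and expansions are
triangular. -/
theorem Ord.basis (h : Ord ord lc) {u : R} (hu : u ≠ 0) {X : Type} [Fintype X] (b : X → R)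
    (h0 : ∀ x, b x ≠ 0) (h1 : Function.Injective fun x => ord (b x))
    (h2 : ∀ s, Ap ord (ord u) s ↔ ∃ x, ord (b x) = s) :
    ∃ β : Module.Basis X k (R ⧸ Ideal.span {u}), (∀ x, β x = Ideal.Quotient.mk _ (b x)) ∧
      ∀ r x, (ord r < ord (b x) → β.repr (Ideal.Quotient.mk _ r) x = 0) ∧
        (ord r = ord (b x) → β.repr (Ideal.Quotient.mk _ r) x * lc (b x) = lc r) := by
  classical
  have hi : LinearIndependent k fun x => Ideal.Quotient.mk (Ideal.span {u}) (b x) := by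
    refine Fintype.linearIndependent_iff.mpr fun c hc x => by_contra fun hx => ?_
    rcases h.o2_sum b h0 h1 c (Finset.univ.filter fun y => c y ≠ 0) (by simp) with
      e | ⟨y, -, h3, h4⟩
    · exact Finset.eq_empty_iff_forall_notMem.mp e x (by simpa using hx)
    rw [Finset.sum_filter_of_ne (p := fun z => c z ≠ 0) fun z _ hz e => hz (by rw [e, zero_smul])]
      at h3 h4
    have h5 : ∑ z, c z • b z ∈ Ideal.span {u} := by
      rw [← Ideal.Quotient.eq_zero_iff_mem, map_sum]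
      exact hc
    obtain ⟨t, ht⟩ := Ideal.mem_span_singleton'.mp h5
    have h6 : t ≠ 0 := by rintro rfl; exact h3 (by rw [← ht, zero_mul])
    exact ((h2 _).mpr ⟨y, rfl⟩).2 ⟨t, h6, by rw [← h.ord_mul _ _ h6 hu, ht, h4]⟩
  have hs : ⊤ ≤ Submodule.span k
      (Set.range fun x => Ideal.Quotient.mk (Ideal.span {u}) (b x)) := fun q _ => by
    obtain ⟨r, rfl⟩ := Ideal.Quotient.mk_surjective q
    obtain ⟨c, hc, -⟩ := h.o2_exp hu b h0 h1 h2 r
    rw [hc]
    exact sum_mem fun x _ => Submodule.smul_mem _ _ (Submodule.subset_span ⟨x, rfl⟩)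
  refine ⟨Module.Basis.mk hi hs, Module.Basis.mk_apply hi hs, fun r x => ?_⟩
  obtain ⟨c, hc, h3⟩ := h.o2_exp hu b h0 h1 h2 r
  have h4 := (Module.Basis.mk hi hs).repr_sum_self c
  simp only [Module.Basis.mk_apply] at h4
  rw [hc, h4]
  exact h3 x

theorem Ord.exists_family (h : Ord ord lc) {u : R} (hu : u ≠ 0) :
    ∃ b : Fin (ord u) → R, (∀ x, b x ≠ 0) ∧ (Function.Injective fun x => ord (b x)) ∧
      ∀ s, Ap ord (ord u) s ↔ ∃ x, ord (b x) = s := by
  by_cases ha : ord u = 0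
  · rw [ha]
    exact ⟨Fin.elim0, fun x => x.elim0, fun x => x.elim0,
      fun s => ⟨fun hs => absurd hs.1 hs.2, fun ⟨x, _⟩ => x.elim0⟩⟩
  have : NeZero (ord u) := ⟨ha⟩
  choose s hs hs' using h.ap hu ha
  choose r hr hr' using fun i => (hs i).1.1
  let e := ZMod.finEquiv (ord u)
  refine ⟨fun x => r (e x), fun x => hr _, fun x y hxy => e.injective ?_,
    fun t => ⟨fun ht => ⟨e.symm t, ?_⟩, ?_⟩⟩
  · simp only [hr'] at hxy
    rw [← (hs (e x)).2, hxy, (hs (e y)).2]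
  · rw [hr', e.apply_symm_apply]
    exact (hs' _ t ⟨ht, rfl⟩).symm
  · rintro ⟨x, rfl⟩
    rw [hr']
    exact (hs _).1

theorem Ord.dg_eq (h : Ord ord lc) {u : R} (hu : u ≠ 0) : dg k (Ideal.span {u}) = ord u := by
  obtain ⟨b, h0, h1, h2⟩ := h.exists_family hu
  obtain ⟨β, -⟩ := h.basis hu b h0 h1 h2
  rw [dg, Module.finrank_eq_card_basis β, Fintype.card_fin]

end Pool.Agent.Lib.MP_d61fbb_ag.WP
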