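import Pool.Agent.Lib.MP_d61fbb_ag.WP.O2

/-! Weil reciprocity. -/

set_option autoImplicit false

noncomputable section

namespace Pool.Agent.Lib.MP_d61fbb_ag.WP

open Polynomial Pool.Agent.Lib.MP_d61fbb_ag.SQ

variable {k R : Type} [Field k] [CommRing R] [Algebra k R] {ord : R → ℕ} {lc : R → k}

theorem o3_ne (h : Ord ord lc) {u v : R} (hu : u ≠ 0) (hv : v ≠ 0) : u * v ≠ 0 := fun e => by
  have := (h.zero _).mpr e
  rw [h.lc_mul] at this
  exact (mul_eq_zero.mp this).elim (fun k => hu ((h.zero _).mp k)) fun k => hv ((h.zero _).mp k)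

theorem o3_ap (h : Ord ord lc) {u w : R} (hu : u ≠ 0) (hw : w ≠ 0) (s : ℕ) :
    Ap ord (ord u + ord w) s ↔ Ap ord (ord u) s ∨ ∃ t, Ap ord (ord w) t ∧ ord u + t = s := by
  constructor
  · rintro ⟨h1, h2⟩
    by_cases h3 : ∃ r, r ≠ 0 ∧ ord r + ord u = s
    · obtain ⟨r, hr, e⟩ := h3
      exact Or.inr ⟨ord r, ⟨⟨r, hr, rfl⟩, fun ⟨q, hq, e'⟩ => h2 ⟨q, hq, by omega⟩⟩, by omega⟩
    · exact Or.inl ⟨h1, h3⟩
  · rintro (⟨h1, h2⟩ | ⟨t, ⟨⟨r, hr, e⟩, h2⟩, e'⟩)
    · exact ⟨h1, fun ⟨q, hq, e⟩ =>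
        h2 ⟨q * w, o3_ne h hq hw, by rw [h.ord_mul _ _ hq hw]; omega⟩⟩
    · exact ⟨⟨u * r, o3_ne h hu hr, by rw [h.ord_mul _ _ hu hr]; omega⟩,
        fun ⟨q, hq, e''⟩ => h2 ⟨q, hq, by omega⟩⟩

/-- A family of functions with the pole orders of a basis modulo a function of order `a`. -/
def o3_Fam (ord : R → ℕ) (a : ℕ) {X : Type} (b : X → R) : Prop :=
  (∀ x, b x ≠ 0) ∧ (Function.Injective fun x => ord (b x)) ∧ ∀ s, Ap ord a s ↔ ∃ x, ord (b x) = s

theorem o3_Fam.sum (h : Ord ord lc) {u w : R} (hu : u ≠ 0) (hw : w ≠ 0) {X Y : Type} {U : X → R}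
    {W : Y → R} (hU : o3_Fam ord (ord u) U) (hW : o3_Fam ord (ord w) W) :
    o3_Fam ord (ord u + ord w) (Sum.elim U fun y => u * W y) := by
  obtain ⟨u0, u1, u2⟩ := hU
  obtain ⟨w0, w1, w2⟩ := hW
  have e : ∀ y, ord (u * W y) = ord u + ord (W y) := fun y => h.ord_mul _ _ hu (w0 y)
  have k : ∀ x y, ord (U x) ≠ ord (u * W y) := fun x y k =>
    ((u2 _).mpr ⟨x, rfl⟩).2 ⟨W y, w0 y, by rw [k, e, add_comm]⟩
  refine ⟨?_, ?_, fun s => ?_⟩
  · rintro (x | y)
    · exact u0 x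
    · exact o3_ne h hu (w0 y)
  · rintro (x | y) (x' | y') hh
    · exact congrArg _ (u1 hh)
    · exact (k _ _ hh).elim
    · exact (k _ _ hh.symm).elim
    · simp only [Sum.elim_inr, e, add_right_inj] at hh
      exact congrArg _ (w1 hh)
  · simp only [o3_ap h hu hw, u2, w2, Sum.exists, Sum.elim_inl, Sum.elim_inr, e]
    refine or_congr_right ⟨?_, ?_⟩
    · rintro ⟨t, ⟨y, rfl⟩, k⟩
      exact ⟨y, k⟩
    · rintro ⟨y, k⟩
      exact ⟨_, ⟨y, rfl⟩, k⟩

theorem o3_Fam.comp {a : ℕ} {X Y : Type} {b : X → R} (hb : o3_Fam ord a b) (e : Y ≃ X) :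
    o3_Fam ord a (b ∘ e) :=
  ⟨fun y => hb.1 (e y), hb.2.1.comp e.injective, fun s =>
    (hb.2.2 s).trans (e.exists_congr_right (q := fun x => ord (b x) = s)).symm⟩

theorem o3_block {p u : R} (hp : u ∣ p) {X Y : Type} [Fintype X] [Fintype Y] [DecidableEq X]
    [DecidableEq Y] (β : Module.Basis (X ⊕ Y) k (R ⧸ Ideal.span {p}))
    (γ : Module.Basis X k (R ⧸ Ideal.span {u})) {U : X → R} {V : Y → R}
    (hβ : ∀ x, β x = Ideal.Quotient.mk _ (Sum.elim U V x)) (hV : ∀ y, u ∣ V y)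
    (hγ : ∀ x, γ x = Ideal.Quotient.mk _ (U x)) (w : R) :
    β.det (fun x => Ideal.Quotient.mk _ (Sum.elim (fun x => w * U x) V x)) =
      nm k (Ideal.span {u}) w := by
  have hle : Ideal.span {p} ≤ Ideal.span {u} := Ideal.span_singleton_le_span_singleton.mpr hp
  have key : ∀ x, β.coord (Sum.inl x) =
      γ.coord x ∘ₗ (Ideal.Quotient.factorₐ k hle).toLinearMap := fun x => by
    refine β.ext fun z => ?_
    have e : (Ideal.Quotient.factorₐ k hle).toLinearMap (β z) =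
        Ideal.Quotient.mk _ (Sum.elim U V z) := by rw [hβ]; rfl
    rw [LinearMap.comp_apply, e]
    rcases z with z | z
    · rw [Sum.elim_inl, ← hγ]
      simp [Finsupp.single_apply]
    · rw [Sum.elim_inr, Ideal.Quotient.eq_zero_iff_mem.mpr (Ideal.mem_span_singleton.mpr (hV z))]
      simp
  rw [Module.Basis.det_apply, ← Matrix.fromBlocks_toBlocks (β.toMatrix _)]
  have e1 : (β.toMatrix fun x => Ideal.Quotient.mk _ (Sum.elim (fun x => w * U x) V x)).toBlocks₁₁ =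
      Algebra.leftMulMatrix γ (Ideal.Quotient.mk _ w) := by
    ext i j
    rw [Algebra.leftMulMatrix_eq_repr_mul, hγ, ← map_mul]
    exact LinearMap.congr_fun (key i) (Ideal.Quotient.mk _ (w * U j))
  have e2 : ∀ i j, (β.toMatrix fun x => Ideal.Quotient.mk _ (Sum.elim (fun x => w * U x) V x)) i
      (Sum.inr j) = if Sum.inr j = i then 1 else 0 := fun i j => by
    rw [Module.Basis.toMatrix_apply, Sum.elim_inr, ← Sum.elim_inr U V j, ← hβ, β.repr_self,
      Finsupp.single_apply]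
  have e3 : (β.toMatrix fun x => Ideal.Quotient.mk _ (Sum.elim (fun x => w * U x) V x)).toBlocks₁₂ =
      0 := by
    ext i j
    simp [Matrix.toBlocks₁₂, e2]
  have e4 : (β.toMatrix fun x => Ideal.Quotient.mk _ (Sum.elim (fun x => w * U x) V x)).toBlocks₂₂ =
      1 := by
    ext i j
    simp [Matrix.toBlocks₂₂, e2, Matrix.one_apply, eq_comm]
  rw [e1, e3, e4, Matrix.det_fromBlocks_zero₁₂, Matrix.det_one, mul_one, nm,
    Algebra.norm_eq_matrix_det γ]

theorem o3_sign (n b : ℕ) [NeZero n] :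
    Equiv.Perm.sign (Equiv.addRight (b : ZMod n)) = (-1) ^ ((n - 1) * b) := by
  obtain ⟨m, rfl⟩ := Nat.exists_eq_succ_of_ne_zero (NeZero.ne n)
  have h1 : Equiv.Perm.sign (Equiv.addRight (1 : ZMod (m + 1))) = (-1) ^ (m + 1 - 1) := by
    rw [← sign_finRotate]
    exact congrArg (fun σ : Equiv.Perm (Fin (m + 1)) => Equiv.Perm.sign σ)
      (Equiv.ext fun i => (finRotate_apply i).symm)
  induction b with
  | zero => simp
  | succ b ih =>
    have e : Equiv.addRight ((b + 1 : ℕ) : ZMod (m + 1)) =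
        Equiv.addRight (1 : ZMod (m + 1)) * Equiv.addRight (b : ZMod (m + 1)) := by
      ext i; simp [add_assoc]
    rw [e, map_mul, h1, ih, ← pow_add, mul_add, mul_one, add_comm]

theorem o3_perm (h : Ord ord lc) {p : R} (hp : p ≠ 0) {X : Type} [Fintype X] [DecidableEq X]
    {F G : X → R} (hF : o3_Fam ord (ord p) F) (hG : o3_Fam ord (ord p) G) {b : ℕ}
    (hb : ∀ x, (ord (G x) : ZMod (ord p)) = ord (F x) + b) (h0 : ord p ≠ 0) :
    ∃ π : Equiv.Perm X, (∀ x, ord (G x) = ord (F (π x))) ∧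
      Equiv.Perm.sign π = (-1) ^ ((ord p - 1) * b) := by
  have : NeZero (ord p) := ⟨h0⟩
  have uq : ∀ s t, Ap ord (ord p) s → Ap ord (ord p) t → (s : ZMod (ord p)) = t → s = t :=
    fun s t hs ht e => (h.ap hp h0 t).unique ⟨hs, e⟩ ⟨ht, rfl⟩
  have bij : Function.Bijective fun x => (ord (F x) : ZMod (ord p)) := by
    refine ⟨fun x y e => hF.2.1 (uq _ _ ((hF.2.2 _).mpr ⟨x, rfl⟩) ((hF.2.2 _).mpr ⟨y, rfl⟩) e),
      fun i => ?_⟩
    obtain ⟨s, h1, h2⟩ := (h.ap hp h0 i).exists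
    obtain ⟨x, rfl⟩ := (hF.2.2 s).mp h1
    exact ⟨x, h2⟩
  refine ⟨(Equiv.ofBijective _ bij).symm.permCongr (Equiv.addRight (b : ZMod (ord p))),
    fun x => uq _ _ ((hG.2.2 _).mpr ⟨x, rfl⟩) ((hF.2.2 _).mpr ⟨_, rfl⟩) ?_, ?_⟩
  · rw [hb]
    exact ((Equiv.ofBijective _ bij).apply_symm_apply _).symm
  · rw [Equiv.Perm.sign_permCongr, o3_sign]

omit [CommRing R] [Algebra k R] in
theorem o3_tri {X M : Type} [Fintype X] [DecidableEq X] [AddCommGroup M] [Module k M]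
    (β : Module.Basis X k M) (q : R → M) {F G : X → R}
    (hG : Function.Injective fun x => ord (G x))
    (hβ : ∀ r x, (ord r < ord (F x) → β.repr (q r) x = 0) ∧
      (ord r = ord (F x) → β.repr (q r) x * lc (F x) = lc r))
    {π : Equiv.Perm X} (hπ : ∀ x, ord (G x) = ord (F (π x))) :
    Equiv.Perm.sign π * β.det (fun x => q (G x)) * ∏ x, lc (F x) = ∏ x, lc (G x) := by
  let _ := LinearOrder.lift' _ hG
  rw [Module.Basis.det_apply, ← Matrix.det_permute, Matrix.det_of_isUpperTriangular,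
    ← Equiv.prod_comp π fun x => lc (F x), ← Finset.prod_mul_distrib]
  · exact Finset.prod_congr rfl fun x _ => (hβ _ _).2 (hπ x)
  · exact fun x y hh => (hβ _ _).1 (lt_of_lt_of_eq hh (hπ x))

theorem Ord.recip (h : Ord ord lc) {u w : R} (hu : u ≠ 0) (hw : w ≠ 0) :
    nm k (Ideal.span {u}) w * lc u ^ ord w =
      (-1) ^ (ord u * ord w) * nm k (Ideal.span {w}) u * lc w ^ ord u := by
  obtain ⟨U, hU⟩ := h.exists_family hu
  obtain ⟨W, hW⟩ := h.exists_family hw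
  have hp := o3_ne h hu hw
  have hn := h.ord_mul _ _ hu hw
  have hF : o3_Fam ord (ord (u * w)) (Sum.elim U fun y => u * W y) :=
    hn ▸ o3_Fam.sum h hu hw hU hW
  have hG' : o3_Fam ord (ord (u * w)) (Sum.elim W fun y => w * U y) := by
    rw [hn, add_comm]; exact o3_Fam.sum h hw hu hW hU
  have hG := hG'.comp (Equiv.sumComm _ _)
  obtain ⟨β, b1, b2⟩ := h.basis hp _ hF.1 hF.2.1 hF.2.2
  obtain ⟨β', c1, -⟩ := h.basis hp _ hG'.1 hG'.2.1 hG'.2.2
  obtain ⟨γ, g1, -⟩ := h.basis hu _ hU.1 hU.2.1 hU.2.2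
  obtain ⟨δ, d1, -⟩ := h.basis hw _ hW.1 hW.2.1 hW.2.2
  have e1 := o3_block (dvd_mul_right u w) β γ b1 (fun y => dvd_mul_right _ _) g1 w
  have e2 := o3_block (dvd_mul_left w u) β' δ c1 (fun y => dvd_mul_right _ _) d1 u
  obtain ⟨π, p1, p2⟩ : ∃ π : Equiv.Perm (Fin (ord u) ⊕ Fin (ord w)),
      (∀ x, ord (((Sum.elim W fun y => w * U y) ∘ Equiv.sumComm _ _) x) =
        ord (Sum.elim U (fun y => u * W y) (π x))) ∧
      Equiv.Perm.sign π = (-1) ^ (ord u * ord w) := by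
    by_cases h0 : ord (u * w) = 0
    · refine ⟨1, ?_, by simp [show ord u = 0 by omega]⟩
      rintro (x | x) <;> exact absurd x.2 (by omega)
    obtain ⟨π, p1, p2⟩ := o3_perm h hp hF hG (b := ord w) (by
      have z : ((ord u + ord w : ℕ) : ZMod (ord (u * w))) = 0 := by
        rw [← hn]; exact ZMod.natCast_self _
      push_cast at z
      rintro (x | x)
      · simp [h.ord_mul _ _ hw (hU.1 x), add_comm]
      · simp only [Function.comp, Equiv.sumComm_apply, Sum.swap_inr, Sum.elim_inl, Sum.elim_inr,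
          h.ord_mul _ _ hu (hW.1 x)]
        push_cast
        linear_combination -z) h0
    refine ⟨π, p1, p2.trans ?_⟩
    rw [Int.units_pow_eq_pow_mod_two, Int.units_pow_eq_pow_mod_two _ (ord u * ord w)]
    obtain ⟨m, hm⟩ := Nat.exists_eq_succ_of_ne_zero h0
    rw [hm, Nat.succ_sub_one]
    have : m * ord w % 2 = ord u * ord w % 2 := by
      rcases Nat.mod_two_eq_zero_or_one (ord w) with k | k
      · rw [Nat.mul_mod, k, Nat.mul_mod (ord u), k]; simp
      · rw [Nat.mul_mod, k, Nat.mul_mod (ord u), k, show m % 2 = ord u % 2 by omega]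
    rw [this]
  have e3 := o3_tri β (Ideal.Quotient.mk _) hG.2.1 b2 p1
  have e4 : nm k (Ideal.span {u}) w = β.det (fun x => Ideal.Quotient.mk _
      (((Sum.elim W fun y => w * U y) ∘ Equiv.sumComm _ _) x)) * nm k (Ideal.span {w}) u := by
    have e5 : (fun x => Ideal.Quotient.mk (Ideal.span {u * w})
        (((Sum.elim W fun y => w * U y) ∘ Equiv.sumComm _ _) x)) =
        β'.reindex (Equiv.sumComm _ _) := by
      ext x; rw [Module.Basis.reindex_apply, c1]; rfl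
    rw [e5, ← e1, ← e2, Module.Basis.det_apply β, Module.Basis.det_apply β,
      ← β.toMatrix_mul_toMatrix (β'.reindex (Equiv.sumComm _ _)), Matrix.det_mul,
      ← Module.Basis.det_apply (β'.reindex _), Module.Basis.det_reindex]
    refine congrArg (fun z => _ * β'.det z) ?_
    ext (x | x) <;> rfl
  have q1 : ∏ x, lc (U x) ≠ 0 := Finset.prod_ne_zero_iff.mpr fun x _ k => hU.1 x ((h.zero _).mp k)
  have q2 : ∏ x, lc (W x) ≠ 0 := Finset.prod_ne_zero_iff.mpr fun x _ k => hW.1 x ((h.zero _).mp k)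
  rw [p2] at e3
  simp only [Fintype.prod_sum_type, Function.comp, Equiv.sumComm_apply, Sum.swap_inl, Sum.swap_inr,
    Sum.elim_inl, Sum.elim_inr, h.lc_mul, Finset.prod_mul_distrib, Finset.prod_const,
    Finset.card_univ, Fintype.card_fin, Units.val_pow_eq_pow_val, Units.val_neg, Units.val_one,
    Int.cast_pow, Int.cast_neg, Int.cast_one] at e3 e4
  have sq : ((-1 : k) ^ (ord u * ord w)) ^ 2 = 1 := by rw [← pow_mul, mul_comm, pow_mul]; simp
  rw [e4]
  refine mul_right_cancel₀ (mul_ne_zero q1 q2) ?_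
  clear e1 e4
  generalize β.det _ = d at e3 ⊢
  linear_combination (-1) ^ (ord u * ord w) * nm k (Ideal.span {w}) u * e3 -
    d * nm k (Ideal.span {w}) u * lc u ^ ord w * (∏ x, lc (U x)) * (∏ x, lc (W x)) * sq

end Pool.Agent.Lib.MP_d61fbb_ag.WP
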