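import Pool.Agent.Lib.MP_d61fbb_ag.WP.I2
import Pool.Agent.Lib.MP_d61fbb_ag.WP.O3

/-! The pairing is well defined. -/

set_option autoImplicit false

noncomputable section

namespace Pool.Agent.Lib.MP_d61fbb_ag.WP

open Polynomial Pool.Agent.Lib.MP_d61fbb_ag.SQ

variable {k : Type} [Field k] [IsAlgClosed k] {l : ℕ} {f : k[X]} [Sm l f]
  {ord : Crv k l f → ℕ} {lc : Crv k l f → k}

theorem ord_eq (o : Ord ord lc) {g : Crv k l f} (hg : g ≠ 0) :
    (ord g : ℤ) = deg (dv (io l f g)) := by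
  rw [← o.dg_eq hg, ← idl_dv hg, dg_idl (dv_nonneg g)]

theorem recip_dv (o : Ord ord lc) {u w : Crv k l f} (hu : u ≠ 0) (hw : w ≠ 0) :
    evD (dv (io l f u)) w * lc u ^ ord w =
      (-1) ^ (ord u * ord w) * evD (dv (io l f w)) u * lc w ^ ord u := by
  rw [← nm_idl (dv_nonneg u), ← nm_idl (dv_nonneg w), idl_dv hu, idl_dv hw]
  exact o.recip hu hw

variable {N : ℕ} {D D' E E' : Dv l f} {g g' h h' : Crv k l f}

theorem WD.symm (w : WD N D E g h) : WD N E D h g :=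
  ⟨w.e0, w.d0, fun P => (w.disj P).symm, w.h0, w.g0, w.dh, w.dg⟩

omit [IsAlgClosed k] [Sm l f] in
theorem v1_lc (o : Ord ord lc) {u : Crv k l f} (hu : u ≠ 0) : lc u ≠ 0 :=
  fun e => hu ((o.zero u).1 e)

omit [IsAlgClosed k] [Sm l f] in
theorem v1_lc_pow (o : Ord ord lc) (u : Crv k l f) (n : ℕ) : lc (u ^ n) = lc u ^ n := by
  induction n with
  | zero => simpa using o.lc_const 1
  | succ n ih => rw [pow_succ, o.lc_mul, ih, pow_succ]

omit [IsAlgClosed k] in
theorem v1_io {u : Crv k l f} (hu : u ≠ 0) : io l f u ≠ 0 := (map_ne_zero_iff _ io_inj).2 hu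

theorem WD.v1_ev (w : WD N D E g h) : evD D h ≠ 0 :=
  evD_ne w.h0 fun P => (w.disj P).imp_right fun e => by
    rw [w.dh, Finsupp.smul_apply, e, smul_zero]

theorem val_ne (o : Ord ord lc) (w : WD N D E g h) : val lc N D E g h ≠ 0 := by
  exact mul_ne_zero (mul_ne_zero (zpow_ne_zero _ (neg_ne_zero.2 one_ne_zero))
    (div_ne_zero (zpow_ne_zero _ (v1_lc o w.h0)) (zpow_ne_zero _ (v1_lc o w.g0))))
    (div_ne_zero w.symm.v1_ev w.v1_ev)

theorem val_symm (w : WD N D E g h) : val lc N E D h g = (val lc N D E g h)⁻¹ := by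
  rw [val, val, mul_inv, mul_inv, inv_div, inv_div, ← inv_zpow, inv_neg, inv_one,
    mul_right_comm (N : ℤ)]

theorem v1_const (o : Ord ord lc) {c : k} (hc : c ≠ 0) :
    val lc N D E g (algebraMap k _ c * h) = val lc N D E g h := by
  have h1 : c ^ deg D ≠ 0 := zpow_ne_zero _ hc
  rw [val, val, o.lc_mul, o.lc_const, evD_mul, evD_const D hc, mul_zpow,
    mul_assoc ((-1 : k) ^ _), mul_assoc ((-1 : k) ^ _), div_mul_div_comm, div_mul_div_comm,
    mul_assoc (c ^ deg D), mul_left_comm (lc g ^ deg E), mul_div_mul_left _ _ h1]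

theorem v1_mul (o : Ord ord lc) (w : WD N D E g h) {α : Crv k l f} (hα : α ≠ 0)
    (h0 : evD D α ≠ 0) :
    val lc N D (E + dv (io l f α)) g (h * α ^ N) = val lc N D E g h := by
  obtain ⟨a, ha⟩ := Int.eq_ofNat_of_zero_le (deg_nonneg w.d0)
  obtain ⟨b, hb⟩ := Int.eq_ofNat_of_zero_le (deg_nonneg w.e0)
  have h1 : ord g = N * a := by
    have := ord_eq o w.g0
    rw [w.dg, map_nsmul, ha, nsmul_eq_mul] at this
    exact_mod_cast this
  have h2 := recip_dv o hα w.g0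
  rw [w.dg, evD_nsmul w.d0, h1] at h2
  have h3 := v1_lc o w.g0
  have h4 := w.v1_ev
  have h5 : ((-1 : k) ^ (ord α * (N * a))) ^ 2 = 1 := by
    rw [← pow_mul, mul_comm, pow_mul, neg_one_sq, one_pow]
  rw [val, val, map_add, ← ord_eq o hα, ha, hb, evD_add w.e0 (dv_nonneg α), evD_mul, evD_pow,
    o.lc_mul, v1_lc_pow o, ← Nat.cast_add, ← Nat.cast_mul, ← Nat.cast_mul, ← Nat.cast_mul]
  simp only [zpow_natCast]
  rw [mul_add, pow_add, pow_add, mul_pow, ← pow_mul, mul_comm (N * a) (ord α)]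
  generalize (-1 : k) ^ (ord α * (N * a)) = ε at h2 h5
  field_simp
  linear_combination (lc h ^ a * evD E g * ε) * h2 +
    (lc h ^ a * evD E g * evD D α ^ N * lc g ^ ord α) * h5

theorem val_right (o : Ord ord lc) (hN : N ≠ 0) (w : WD N D E g h) (w' : WD N D E' g h')
    (e : cw E = cw E') : val lc N D E g h = val lc N D E' g h' := by
  obtain ⟨b, hb, e1⟩ := cw_eq_zero.1 (show cw (E - E') = 0 by rw [map_sub, e, sub_self])
  have e2 : dv (io l f h' * b) = N • E' + (E - E') := by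
    rw [dv_mul (v1_io w'.h0) hb, w'.dh, e1]
  obtain ⟨α, hα⟩ := dv_int (b := io l f h' * b) (by
    obtain ⟨M, rfl⟩ := Nat.exists_eq_succ_of_ne_zero hN
    rw [e2, succ_nsmul, add_assoc, add_sub_cancel]
    exact add_nonneg (nsmul_nonneg w'.e0 M) w.e0)
  have α0 : α ≠ 0 := fun k => mul_ne_zero (v1_io w'.h0) hb (by rw [← hα, k, map_zero])
  rw [← hα] at e2
  have e3 : E + dv (io l f h') = E' + dv (io l f α) := by rw [e2, w'.dh]; abel
  obtain ⟨c, hc, e4⟩ := eq_const (mul_ne_zero w.h0 (pow_ne_zero N w'.h0))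
    (mul_ne_zero w'.h0 (pow_ne_zero N α0)) (by
      rw [map_mul, map_mul, map_pow, map_pow, dv_mul (v1_io w.h0) (pow_ne_zero N (v1_io w'.h0)),
        dv_mul (v1_io w'.h0) (pow_ne_zero N (v1_io α0)), dv_pow, dv_pow, w.dh, ← smul_add, e3,
        smul_add, w'.dh])
  rw [← v1_mul o w w'.h0 w'.v1_ev, ← v1_mul o w' α0 (evD_ne α0 fun P => ?_), e3, e4,
    v1_const o hc]
  refine or_iff_not_imp_left.2 fun k => ?_
  rw [e2, Finsupp.add_apply, Finsupp.sub_apply, Finsupp.smul_apply,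
    (w.disj P).resolve_left k, (w'.disj P).resolve_left k, smul_zero, sub_self, add_zero]

theorem val_uniq (o : Ord ord lc) (hN : N ≠ 0) (w : WD N D E g h) (w' : WD N D' E' g' h')
    (e : cw D = cw D') (e' : cw E = cw E') : val lc N D E g h = val lc N D' E' g' h' := by
  obtain ⟨F, F0, e1, e2⟩ := move_eff (D.hasFiniteSupport.union D'.hasFiniteSupport) (cw E)
  obtain ⟨u, u0, hu⟩ := exists_fn (nsmul_nonneg F0 N) (by
    rw [map_nsmul, e1, ← map_nsmul, ← w.dh]
    exact cw_eq_zero.2 ⟨_, v1_io w.h0, rfl⟩)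
  have w1 : WD N D F g u := ⟨w.d0, F0,
    fun P => or_iff_not_imp_left.2 fun k => e2 P (Or.inl k), w.g0, u0, w.dg, hu⟩
  have w2 : WD N D' F g' u := ⟨w'.d0, F0,
    fun P => or_iff_not_imp_left.2 fun k => e2 P (Or.inr k), w'.g0, u0, w'.dg, hu⟩
  rw [val_right o hN w w1 e1.symm, val_right o hN w' w2 (e'.symm.trans e1.symm),
    val_symm w1.symm, val_symm w2.symm, val_right o hN w1.symm w2.symm e]

end Pool.Agent.Lib.MP_d61fbb_ag.WP
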